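import Pool.Agent.H86.DM.Data

/-!
MP_9d29f5_al, project DM, block D (helper86): the group `Kg` generated by `x_1, …, x_4` and the
scalars, its generating set.
-/
set_option autoImplicit false

namespace Pool.Agent.H86.DM

open Pool.Agent.H13.DM

/-- the generators as elements of the unitary group -/
def xU (i : Fin 4) : UU := ⟨xM i, xM_isU i⟩

theorem scalar_isU : ∀ u : Fin 6, M3.IsU (M3.smul (Eis.unit u) 1) := by decide +kernel

/-- the scalars as elements of the unitary group -/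
def zU (u : Fin 6) : UU := ⟨M3.smul (Eis.unit u) 1, scalar_isU u⟩

/-- the group generated by the `x_i` and the scalars -/
def Kg : Subgroup UU := Subgroup.closure (Set.range xU ∪ Set.range zU)

/-- the generators -/
def xk (i : Fin 4) : Kg := ⟨xU i, Subgroup.subset_closure (Or.inl ⟨i, rfl⟩)⟩

/-- the scalars -/
def zk (u : Fin 6) : Kg := ⟨zU u, Subgroup.subset_closure (Or.inr ⟨u, rfl⟩)⟩

theorem zU_comm (u : Fin 6) (g : UU) : zU u * g = g * zU u := by
  apply UU.ext
  change M3.smul (Eis.unit u) 1 * g.m = g.m * M3.smul (Eis.unit u) 1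
  rw [M3.smul_mul, M3.mul_smul', one_mul, mul_one]

theorem zk_comm (u : Fin 6) (g : Kg) : zk u * g = g * zk u :=
  Subtype.ext (zU_comm u g.1)

theorem zU_mul (u v : Fin 6) : zU u * zU v = zU (u + v) := by
  apply UU.ext
  change M3.smul (Eis.unit u) 1 * M3.smul (Eis.unit v) 1 = M3.smul (Eis.unit (u + v)) 1
  rw [M3.smul_mul, one_mul, M3.smul_smul, unit_add]

theorem zU_zero : zU 0 = 1 := by
  apply UU.ext
  change M3.smul 1 1 = 1
  rw [M3.one_smul]

theorem zk_mul (u v : Fin 6) : zk u * zk v = zk (u + v) := Subtype.ext (zU_mul u v)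

theorem zk_zero : zk 0 = 1 := Subtype.ext zU_zero

theorem zk_inv (u : Fin 6) : (zk u)⁻¹ = zk (-u) := by
  rw [inv_eq_iff_mul_eq_one, zk_mul, add_neg_cancel, zk_zero]

/-- the symmetric generating set -/
def Sg : Set Kg := {c | (∃ i, c = xk i ∨ c = (xk i)⁻¹) ∨ ∃ u, c = zk u}

theorem Sg_inv {c : Kg} (h : c ∈ Sg) : c⁻¹ ∈ Sg := by
  rcases h with ⟨i, rfl | rfl⟩ | ⟨u, rfl⟩
  · exact Or.inl ⟨i, Or.inr rfl⟩
  · exact Or.inl ⟨i, Or.inl (inv_inv _)⟩
  · exact Or.inr ⟨-u, zk_inv u⟩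

theorem Sg_finite : Sg.Finite := by
  have h : Sg ⊆ Set.range xk ∪ Set.range (fun i => (xk i)⁻¹) ∪ Set.range zk := by
    rintro c (⟨i, rfl | rfl⟩ | ⟨u, rfl⟩)
    · exact Or.inl (Or.inl ⟨i, rfl⟩)
    · exact Or.inl (Or.inr ⟨i, rfl⟩)
    · exact Or.inr ⟨u, rfl⟩
  exact (((Set.finite_range _).union (Set.finite_range _)).union (Set.finite_range _)).subset h

theorem Sg_closure : Subgroup.closure Sg = ⊤ := by
  have h : Subgroup.closure (((↑) : Kg → UU) ⁻¹' (Set.range xU ∪ Set.range zU)) = ⊤ :=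
    Subgroup.closure_closure_coe_preimage
  rw [eq_top_iff, ← h]
  apply Subgroup.closure_mono
  rintro g (⟨i, hi⟩ | ⟨u, hu⟩)
  · exact Or.inl ⟨i, Or.inl (Subtype.ext hi.symm)⟩
  · exact Or.inr ⟨u, Subtype.ext hu.symm⟩

/-- two elements of `Kg` whose matrices agree up to a unit differ by a scalar -/
theorem sameU_sound {g h : Kg} (e : sameU g.1.m h.1.m = true) : ∃ u, g = h * zk u := by
  rw [sameU, decide_eq_true_eq] at e
  obtain ⟨u, hu⟩ := e
  have h1 : g.1 = h.1 * zU u := by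
    apply UU.ext
    rw [UU.mul_m, hu]
    change _ = h.1.m * M3.smul (Eis.unit u) 1
    rw [M3.mul_smul', mul_one]
  exact ⟨u, Subtype.ext h1⟩

/-- the data delivered by block B -/
structure IsAff (A : Kg →* Aff) : Prop where
  x : ∀ i, A (xk i) = ax i
  z : ∀ u, A (zk u) = 1

end Pool.Agent.H86.DM
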