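import Pool.Agent.H86.DM.Kg

/-!
MP_9d29f5_al, project DM, block D: two automorphisms of `Kg` (job DM-AUTO).

Conjugation `g ↦ s g s⁻¹` by `s = s2 T23 S2 s1 s1 s2 T23⁻¹ S2 S1 s4 s4` and by `s1` (`S1 = s1⁻¹` …,
rows: s1=[1 0 0; 2w -w 0; -2-2w 1 1], s2=[1 0 0; 2+2w -w 0; -2-2w 1+w 1],
T23=[1+w -1 -1-w; -2 -1-2w -2w; -1-w -w 2], s4=[1 0 0; 0 1 0; -1-2w 0 1]).
Both normalise `Kg` (explicit words for `s x_i s⁻¹` and `s⁻¹ x_i s`, checked up to scalars by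
`decide +kernel`), and there is an affine map `Φ y = M y + b` with
`(A (s g s⁻¹)).app (Φ y) = Φ ((A g).app y)` (check on the generators; the set of such `g` is a
subgroup). For a translation `g` (`(A g).n = 0`) this gives the claim.
`s1`: `x1 → x2`, `x2 → x2⁻¹ x4⁻¹ x3⁻¹`, `x3 → x3`, `x4 → x4` up to scalars, `b = 0`.
-/
set_option autoImplicit false

namespace Pool.Agent.H86.DM

open Pool.Agent.H13.DM

/-- evaluation of a word -/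
def evG {G : Type*} [Group G] (x : Fin 4 → G) (l : List (Fin 4 × Bool)) : G :=
  (l.map fun p => if p.2 then x p.1 else (x p.1)⁻¹).prod

theorem map_evG {G K : Type*} [Group G] [Group K] (f : G →* K) (x : Fin 4 → G)
    (l : List (Fin 4 × Bool)) : f (evG x l) = evG (fun i => f (x i)) l := by
  unfold evG
  rw [map_list_prod, List.map_map]
  congr 1
  apply List.map_congr_left
  rintro ⟨i, e⟩ _
  cases e <;> simp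

theorem evG_xU (l : List (Fin 4 × Bool)) : evG xU l ∈ Kg := by
  have h : evG xU l = ((evG xk l : Kg) : UU) := (map_evG Kg.subtype xk l).symm
  rw [h]
  exact (evG xk l).2

/-- the endomorphism of the group of affine maps given by an affine map `y ↦ M y + b` -/
def auPsi (m11 m12 m21 m22 b1 b2 : Eis) : Aff →* Aff where
  toFun x := ⟨x.n, m11 * x.c1 + m12 * x.c2 + b1 - Eis.unit x.n * b1,
    m21 * x.c1 + m22 * x.c2 + b2 - Eis.unit x.n * b2⟩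
  map_one' := by
    ext1
    · rfl
    · simp only [Aff.one_c1, Aff.one_c2, Aff.one_n, unit_zero]; ring
    · simp only [Aff.one_c1, Aff.one_c2, Aff.one_n, unit_zero]; ring
  map_mul' x y := by
    ext1
    · rfl
    · simp only [Aff.mul_c1, Aff.mul_c2, Aff.mul_n, unit_add]; ring
    · simp only [Aff.mul_c1, Aff.mul_c2, Aff.mul_n, unit_add]; ring

theorem au_conj_mem {h : UU} {w : Fin 4 → List (Fin 4 × Bool)}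
    (c : ∀ i, h * xU i * h⁻¹ = evG xU (w i)) {g : UU} (hg : g ∈ Kg) : h * g * h⁻¹ ∈ Kg := by
  have hle : Kg ≤ Kg.comap (MulAut.conj h).toMonoidHom := by
    unfold Kg
    rw [Subgroup.closure_le]
    rintro x (⟨i, rfl⟩ | ⟨u, rfl⟩)
    · change h * xU i * h⁻¹ ∈ Kg
      rw [c i]
      exact evG_xU _
    · change h * zU u * h⁻¹ ∈ Kg
      rw [← zU_comm, mul_assoc, mul_inv_cancel, mul_one]
      exact (zk u).2
  exact hle hg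

theorem auto_mk (A : Kg →* Aff) (hA : IsAff A) (h : UU) (w w' : Fin 4 → List (Fin 4 × Bool))
    (m11 m12 m21 m22 b1 b2 : Eis) (c : ∀ i, h * xU i * h⁻¹ = evG xU (w i))
    (c' : ∀ i, h⁻¹ * xU i * h = evG xU (w' i))
    (c3 : ∀ i, evG ax (w i) = auPsi m11 m12 m21 m22 b1 b2 (ax i)) :
    ∃ σ : Kg ≃* Kg, ∀ g : Kg, A (σ g) = auPsi m11 m12 m21 m22 b1 b2 (A g) := by
  have c'' : ∀ i, h⁻¹ * xU i * (h⁻¹)⁻¹ = evG xU (w' i) := by simpa using c'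
  let σ : Kg ≃* Kg :=
    { toFun := fun g => ⟨h * g.1 * h⁻¹, au_conj_mem c g.2⟩
      invFun := fun g => ⟨h⁻¹ * g.1 * (h⁻¹)⁻¹, au_conj_mem c'' g.2⟩
      left_inv := fun g => Subtype.ext (by simp [mul_assoc])
      right_inv := fun g => Subtype.ext (by simp [mul_assoc])
      map_mul' := fun a b => Subtype.ext (by simp [mul_assoc]) }
  have hx : ∀ i, σ (xk i) = evG xk (w i) := by
    intro i
    apply Subtype.ext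
    change h * xU i * h⁻¹ = Kg.subtype (evG xk (w i))
    rw [c i, map_evG]
    rfl
  have hz : ∀ u, σ (zk u) = zk u := by
    intro u
    apply Subtype.ext
    change h * zU u * h⁻¹ = zU u
    rw [← zU_comm, mul_assoc, mul_inv_cancel, mul_one]
  have key : A.comp σ.toMonoidHom = (auPsi m11 m12 m21 m22 b1 b2).comp A := by
    have hxi : ∀ i, A (σ (xk i)) = auPsi m11 m12 m21 m22 b1 b2 (A (xk i)) := by
      intro i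
      rw [hx, map_evG, hA.x]
      have : (fun i => A (xk i)) = ax := funext hA.x
      rw [this]
      exact c3 i
    apply MonoidHom.eq_of_eqOn_dense Sg_closure
    rintro g (⟨i, rfl | rfl⟩ | ⟨u, rfl⟩)
    · exact hxi i
    · change A (σ (xk i)⁻¹) = auPsi m11 m12 m21 m22 b1 b2 (A (xk i)⁻¹)
      rw [map_inv, map_inv, map_inv, map_inv, hxi i]
    · change A (σ (zk u)) = auPsi m11 m12 m21 m22 b1 b2 (A (zk u))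
      rw [hz, hA.z, map_one]
  exact ⟨σ, fun g => DFunLike.congr_fun key g⟩

theorem auhA_isU : M3.IsU (⟨⟨3, 3⟩, ⟨-2, -1⟩, ⟨-1, -1⟩, ⟨2, 10⟩, ⟨-5, -6⟩, ⟨-2, -4⟩, ⟨-7, -7⟩, ⟨5, 1⟩, ⟨4, 2⟩⟩ : M3) := by decide +kernel
/-- a normalising element -/
def auhA : UU := ⟨⟨⟨3, 3⟩, ⟨-2, -1⟩, ⟨-1, -1⟩, ⟨2, 10⟩, ⟨-5, -6⟩, ⟨-2, -4⟩, ⟨-7, -7⟩, ⟨5, 1⟩, ⟨4, 2⟩⟩, auhA_isU⟩
/-- words -/
def auwA : Fin 4 → List (Fin 4 × Bool)
  | 0 => [(0, true)]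
  | 1 => [(2, false), (1, true), (2, true)]
  | 2 => [(2, false), (1, false), (2, true), (1, true), (2, true)]
  | 3 => [(3, true)]
/-- words -/
def auvA : Fin 4 → List (Fin 4 × Bool)
  | 0 => [(0, true)]
  | 1 => [(1, true), (2, true), (1, true), (2, false), (1, false)]
  | 2 => [(1, true), (2, true), (1, false)]
  | 3 => [(3, true)]
theorem aucA1 : ∀ i, auhA * xU i * auhA⁻¹ = evG xU (auwA i) := by decide +kernel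
theorem aucA2 : ∀ i, auhA⁻¹ * xU i * auhA = evG xU (auvA i) := by decide +kernel
theorem aucA3 : ∀ i, evG ax (auwA i) = auPsi ⟨1, 0⟩ ⟨0, 0⟩ ⟨-1, -2⟩ ⟨1, 1⟩ ⟨0, 0⟩ ⟨-1, 1⟩ (ax i) := by
  decide +kernel

theorem autoA (A : Kg →* Aff) (hA : IsAff A) : ∃ σ : Kg ≃* Kg, ∀ g : Kg,
    A (σ g) = auPsi ⟨1, 0⟩ ⟨0, 0⟩ ⟨-1, -2⟩ ⟨1, 1⟩ ⟨0, 0⟩ ⟨-1, 1⟩ (A g) :=
  auto_mk A hA auhA auwA auvA _ _ _ _ _ _ aucA1 aucA2 aucA3

theorem auhT_isU : M3.IsU (⟨⟨1, 0⟩, ⟨0, 0⟩, ⟨0, 0⟩, ⟨0, 2⟩, ⟨0, -1⟩, ⟨0, 0⟩, ⟨-2, -2⟩, ⟨1, 0⟩, ⟨1, 0⟩⟩ : M3) := by decide +kernel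
/-- a normalising element -/
def auhT : UU := ⟨⟨⟨1, 0⟩, ⟨0, 0⟩, ⟨0, 0⟩, ⟨0, 2⟩, ⟨0, -1⟩, ⟨0, 0⟩, ⟨-2, -2⟩, ⟨1, 0⟩, ⟨1, 0⟩⟩, auhT_isU⟩
/-- words -/
def auwT : Fin 4 → List (Fin 4 × Bool)
  | 0 => [(1, true)]
  | 1 => [(1, false), (0, true), (1, true)]
  | 2 => [(2, true)]
  | 3 => [(3, true)]
/-- words -/
def auvT : Fin 4 → List (Fin 4 × Bool)
  | 0 => [(3, false), (2, false), (1, true), (2, true), (3, true)]
  | 1 => [(0, true)]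
  | 2 => [(2, true)]
  | 3 => [(3, true)]
theorem aucT1 : ∀ i, auhT * xU i * auhT⁻¹ = evG xU (auwT i) := by decide +kernel
theorem aucT2 : ∀ i, auhT⁻¹ * xU i * auhT = evG xU (auvT i) := by decide +kernel
theorem aucT3 : ∀ i, evG ax (auwT i) = auPsi ⟨0, 0⟩ ⟨1, 0⟩ ⟨-1, -1⟩ ⟨2, 1⟩ ⟨0, 0⟩ ⟨0, 0⟩ (ax i) := by
  decide +kernel

theorem autoT (A : Kg →* Aff) (hA : IsAff A) : ∃ σ : Kg ≃* Kg, ∀ g : Kg,
    A (σ g) = auPsi ⟨0, 0⟩ ⟨1, 0⟩ ⟨-1, -1⟩ ⟨2, 1⟩ ⟨0, 0⟩ ⟨0, 0⟩ (A g) :=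
  auto_mk A hA auhT auwT auvT _ _ _ _ _ _ aucT1 aucT2 aucT3

theorem auhB_isU : M3.IsU (⟨⟨2, 0⟩, ⟨0, 1⟩, ⟨0, 1⟩, ⟨2, 0⟩, ⟨1, 2⟩, ⟨0, 2⟩, ⟨0, 1⟩, ⟨-1, -1⟩, ⟨0, -1⟩⟩ : M3) := by decide +kernel
/-- a normalising element -/
def auhB : UU := ⟨⟨⟨2, 0⟩, ⟨0, 1⟩, ⟨0, 1⟩, ⟨2, 0⟩, ⟨1, 2⟩, ⟨0, 2⟩, ⟨0, 1⟩, ⟨-1, -1⟩, ⟨0, -1⟩⟩, auhB_isU⟩
/-- words -/
def auwB : Fin 4 → List (Fin 4 × Bool)
  | 0 => [(3, false), (2, true), (3, true), (0, true), (3, false), (2, false), (3, true)]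
  | 1 => [(1, true)]
  | 2 => [(1, false), (3, false), (2, true), (3, true), (1, true)]
  | 3 => [(3, true)]
/-- words -/
def auvB : Fin 4 → List (Fin 4 × Bool)
  | 0 => [(1, true), (3, true), (0, true), (3, false), (1, false)]
  | 1 => [(1, true)]
  | 2 => [(3, true), (1, true), (2, true), (1, false), (3, false)]
  | 3 => [(3, true)]
theorem aucB1 : ∀ i, auhB * xU i * auhB⁻¹ = evG xU (auwB i) := by decide +kernel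
theorem aucB2 : ∀ i, auhB⁻¹ * xU i * auhB = evG xU (auvB i) := by decide +kernel
theorem aucB3 : ∀ i, evG ax (auwB i) = auPsi ⟨3, -1⟩ ⟨-1, 1⟩ ⟨5, 1⟩ ⟨-2, 0⟩ ⟨-1, -2⟩ ⟨0, -3⟩ (ax i) := by
  decide +kernel

theorem autoB (A : Kg →* Aff) (hA : IsAff A) : ∃ σ : Kg ≃* Kg, ∀ g : Kg,
    A (σ g) = auPsi ⟨3, -1⟩ ⟨-1, 1⟩ ⟨5, 1⟩ ⟨-2, 0⟩ ⟨-1, -2⟩ ⟨0, -3⟩ (A g) :=
  auto_mk A hA auhB auwB auvB _ _ _ _ _ _ aucB1 aucB2 aucB3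

theorem auhE_isU : M3.IsU (⟨⟨1, 0⟩, ⟨0, 0⟩, ⟨0, 0⟩, ⟨0, 0⟩, ⟨1, 0⟩, ⟨0, 0⟩, ⟨-2, -4⟩, ⟨0, 0⟩, ⟨1, 0⟩⟩ : M3) := by decide +kernel
/-- a normalising element -/
def auhE : UU := ⟨⟨⟨1, 0⟩, ⟨0, 0⟩, ⟨0, 0⟩, ⟨0, 0⟩, ⟨1, 0⟩, ⟨0, 0⟩, ⟨-2, -4⟩, ⟨0, 0⟩, ⟨1, 0⟩⟩, auhE_isU⟩
/-- words -/
def auwE : Fin 4 → List (Fin 4 × Bool)
  | 0 => [(0, true)]
  | 1 => [(1, true)]
  | 2 => [(3, false), (2, true), (3, true)]
  | 3 => [(3, false), (2, false), (3, true), (2, true), (3, true)]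
/-- words -/
def auvE : Fin 4 → List (Fin 4 × Bool)
  | 0 => [(0, true)]
  | 1 => [(1, true)]
  | 2 => [(2, true), (3, true), (2, true), (3, false), (2, false)]
  | 3 => [(2, true), (3, true), (2, false)]
theorem aucE1 : ∀ i, auhE * xU i * auhE⁻¹ = evG xU (auwE i) := by decide +kernel
theorem aucE2 : ∀ i, auhE⁻¹ * xU i * auhE = evG xU (auvE i) := by decide +kernel
theorem aucE3 : ∀ i, evG ax (auwE i) = auPsi ⟨0, 1⟩ ⟨-1, -2⟩ ⟨-1, 1⟩ ⟨0, -2⟩ ⟨2, 1⟩ ⟨2, 1⟩ (ax i) := by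
  decide +kernel

theorem autoE (A : Kg →* Aff) (hA : IsAff A) : ∃ σ : Kg ≃* Kg, ∀ g : Kg,
    A (σ g) = auPsi ⟨0, 1⟩ ⟨-1, -2⟩ ⟨-1, 1⟩ ⟨0, -2⟩ ⟨2, 1⟩ ⟨2, 1⟩ (A g) :=
  auto_mk A hA auhE auwE auvE _ _ _ _ _ _ aucE1 aucE2 aucE3

theorem exists_auto_s (A : Kg →* Aff) (hA : IsAff A) : ∃ σ : Kg ≃* Kg, ∀ g : Kg,
    (A (σ g)).n = (A g).n ∧ ((A g).n = 0 →
    (A (σ g)).c1 = ⟨1, 2⟩ * (A g).c1 + ⟨-3, -5⟩ * (A g).c2 ∧
    (A (σ g)).c2 = ⟨1, 0⟩ * (A g).c1 + ⟨-3, 0⟩ * (A g).c2) := by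
  obtain ⟨σA, hσA⟩ := autoA A hA
  obtain ⟨σT, hσT⟩ := autoT A hA
  obtain ⟨σB, hσB⟩ := autoB A hA
  obtain ⟨σE, hσE⟩ := autoE A hA
  refine ⟨((σE.trans σB).trans σT).trans σA, fun g => ?_⟩
  have h : A ((((σE.trans σB).trans σT).trans σA) g) = _ :=
    (hσA _).trans (congrArg _ ((hσT _).trans (congrArg _ ((hσB _).trans (congrArg _ (hσE g))))))
  rw [h]
  refine ⟨rfl, fun hn => ?_⟩
  simp only [auPsi, MonoidHom.coe_mk, OneHom.coe_mk, hn, unit_zero]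
  generalize (A g).c1 = x
  generalize (A g).c2 = y
  constructor
  · ext <;> simp <;> ring
  · ext <;> simp <;> ring

theorem exists_auto_t (A : Kg →* Aff) (hA : IsAff A) : ∃ σ : Kg ≃* Kg, ∀ g : Kg,
    (A (σ g)).n = (A g).n ∧ ((A g).n = 0 →
    (A (σ g)).c1 = (A g).c2 ∧
    (A (σ g)).c2 = ⟨-1, -1⟩ * (A g).c1 + ⟨2, 1⟩ * (A g).c2) := by
  obtain ⟨σT, hσT⟩ := autoT A hA
  refine ⟨σT, fun g => ?_⟩
  rw [hσT]
  refine ⟨rfl, fun hn => ?_⟩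
  simp only [auPsi, MonoidHom.coe_mk, OneHom.coe_mk, hn, unit_zero]
  generalize (A g).c1 = x
  generalize (A g).c2 = y
  constructor
  · ext <;> simp
  · ext <;> simp

end Pool.Agent.H86.DM
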