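import Pool.Agent.H86.DM.KpDef

/-!
MP_9d29f5_al, project DM, block D: the translation lattice (job DM-KER1).

PAPER PROOFS. `inner_phi`: `WithLp.prod_inner_apply`, `Complex.inner`.
`phi_span`: translations in `Kp A`: `g1 = x1 x2⁻¹`, `g2 = x1 g1 x1⁻¹` (translation vector
multiplied by `ζ²`), and `g3`, `g4` of the same kind with a second direction, e.g. from
`x3 x4 ⋯` (`x3`, `x4` have rotations 3 and 5, so `x4³ x3 = ` translation, and its conjugate by `x1`);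
their vectors (computed from `ax` by `decide`/`simp`) span `ℂ²` over `ℝ`: if `⟪u, φ g⟫ = 0` for
the four of them then `u = 0` (`Submodule.eq_top_of...` via orthogonal complement), because
`Re (d v) = Re (d ω v) = 0` implies `d v = 0`.
`phi_disc`: `φ g = (toC c1, toC c2)`; `‖toC x‖² = a² - a b + b² ≥ (a² + b²)/2`, so a bound for the
norm bounds the four integers; finite set of integer quadruples.
-/

set_option autoImplicit false

namespace Pool.Agent.H86.DM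

open Pool.Agent.H13.DM ComplexConjugate

/-- the real inner product space `ℂ²` -/
abbrev VV : Type := WithLp 2 (ℂ × ℂ)

/-- the embedding of the translation lattice -/
noncomputable def emb (y : Eis × Eis) : VV := WithLp.toLp 2 (Eis.toC y.1, Eis.toC y.2)

theorem emb_add (y z : Eis × Eis) : emb (y + z) = emb y + emb z := by
  rw [emb, emb, emb, ← WithLp.toLp_add, Prod.fst_add, Prod.snd_add, toC_add, toC_add]
  rfl

theorem emb_zero : emb 0 = 0 := by
  rw [emb, Prod.fst_zero, Prod.snd_zero, toC_zero]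
  rfl

theorem ker1_normSq (x : Eis) : Complex.normSq (Eis.toC x) =
    (x.a : ℝ) ^ 2 - x.a * x.b + (x.b : ℝ) ^ 2 := by
  have h3 := sq3
  rw [Complex.normSq_apply, toC_re, toC_im]
  linear_combination ((x.b : ℝ) ^ 2 / 4) * h3

theorem ker1_toC_eq_zero {x : Eis} (h : Eis.toC x = 0) : x = 0 := by
  have h1 := ker1_normSq x
  rw [h, map_zero] at h1
  have h2 : (x.a : ℝ) = 0 := by nlinarith [sq_nonneg ((x.a : ℝ) - 2 * x.b), sq_nonneg (x.a : ℝ)]
  have h3 : (x.b : ℝ) = 0 := by nlinarith [sq_nonneg ((x.b : ℝ) - 2 * x.a), sq_nonneg (x.b : ℝ)]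
  have h4 : x.a = 0 := by exact_mod_cast h2
  have h5 : x.b = 0 := by exact_mod_cast h3
  exact Eis.ext h4 h5

theorem ker1_toC_inj {x y : Eis} (h : Eis.toC x = Eis.toC y) : x = y := by
  have h1 : Eis.toC (x - y) = 0 := by rw [toC_sub, h, sub_self]
  exact sub_eq_zero.1 (ker1_toC_eq_zero h1)

theorem emb_injective : Function.Injective emb := by
  intro y z h
  have h1 := congrArg WithLp.ofLp h
  have h2 : Eis.toC y.1 = Eis.toC z.1 := congrArg Prod.fst h1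
  have h3 : Eis.toC y.2 = Eis.toC z.2 := congrArg Prod.snd h1
  exact Prod.ext (ker1_toC_inj h2) (ker1_toC_inj h3)

theorem inner_emb (u : VV) (y : Eis × Eis) :
    inner ℝ u (emb y) = (conj u.fst * Eis.toC y.1 + conj u.snd * Eis.toC y.2).re := by
  rw [WithLp.prod_inner_apply, Complex.add_re, Complex.inner, Complex.inner,
    mul_comm (conj u.fst), mul_comm (conj u.snd)]
  rfl

theorem ker1_w (z : ℂ) (h1 : z.re = 0) (h2 : (Eis.toC ⟨0, 1⟩ * z).re = 0) : z = 0 := by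
  have h3 : (Eis.toC ⟨0, 1⟩).im = Real.sqrt 3 / 2 := by rw [toC_im]; simp
  rw [Complex.mul_re, h1, h3, mul_zero, zero_sub, neg_eq_zero] at h2
  have h4 : Real.sqrt 3 / 2 ≠ 0 := by positivity
  have h5 : z.im = 0 := by
    rcases mul_eq_zero.1 h2 with h | h
    · exact absurd h h4
    · exact h
  exact Complex.ext h1 h5

theorem ker1_mem (A : Kg →* Aff) (y : Eis × Eis) (x : Aff) (g : Kg)
    (hg : A g = x) (hn : x.n = 0) (h1 : x.c1 = y.1) (h2 : x.c2 = y.2) :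
    emb y ∈ Submodule.span ℝ (Set.range (fun g : Kp A => emb (tv A g))) := by
  apply Submodule.subset_span
  refine ⟨⟨g, ?_⟩, ?_⟩
  · change (A g).n = 0
    rw [hg, hn]
  · change emb ((A g).c1, (A g).c2) = emb y
    rw [hg, h1, h2]

theorem emb_span (A : Kg →* Aff) (hA : IsAff A) :
    Submodule.span ℝ (Set.range (fun g : Kp A => emb (tv A g))) = ⊤ := by
  rw [← Submodule.orthogonal_eq_bot_iff, Submodule.eq_bot_iff]
  intro u hu
  rw [Submodule.mem_orthogonal'] at hu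
  have m1 : emb (⟨2, 1⟩, ⟨1, 2⟩) ∈
      Submodule.span ℝ (Set.range (fun g : Kp A => emb (tv A g))) := by
    refine ker1_mem A _ (ax 0 * (ax 1)⁻¹) (xk 0 * (xk 1)⁻¹) ?_ ?_ ?_ ?_
    · rw [map_mul, map_inv, hA.x, hA.x]
    · decide
    · decide
    · decide
  have m2 : emb (⟨0, 1⟩ * ⟨2, 1⟩, ⟨0, 1⟩ * ⟨1, 2⟩) ∈
      Submodule.span ℝ (Set.range (fun g : Kp A => emb (tv A g))) := by
    refine ker1_mem A _ (ax 0 * (ax 0 * (ax 1)⁻¹) * (ax 0)⁻¹)
      (xk 0 * (xk 0 * (xk 1)⁻¹) * (xk 0)⁻¹) ?_ ?_ ?_ ?_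
    · simp only [map_mul, map_inv, hA.x]
    · decide
    · decide
    · decide
  have m3 : emb (⟨2, 4⟩, ⟨2, 4⟩) ∈
      Submodule.span ℝ (Set.range (fun g : Kp A => emb (tv A g))) := by
    refine ker1_mem A _ (ax 3 * ax 3 * ax 3 * ax 2) (xk 3 * xk 3 * xk 3 * xk 2) ?_ ?_ ?_ ?_
    · simp only [map_mul, hA.x]
    · decide
    · decide
    · decide
  have m4 : emb (⟨0, 1⟩ * ⟨2, 4⟩, ⟨0, 1⟩ * ⟨2, 4⟩) ∈
      Submodule.span ℝ (Set.range (fun g : Kp A => emb (tv A g))) := by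
    refine ker1_mem A _ (ax 0 * (ax 3 * ax 3 * ax 3 * ax 2) * (ax 0)⁻¹)
      (xk 0 * (xk 3 * xk 3 * xk 3 * xk 2) * (xk 0)⁻¹) ?_ ?_ ?_ ?_
    · simp only [map_mul, map_inv, hA.x]
    · decide
    · decide
    · decide
  have i1 := hu _ m1
  have i2 := hu _ m2
  have i3 := hu _ m3
  have i4 := hu _ m4
  rw [inner_emb] at i1 i2 i3 i4
  have z1 : conj u.fst * Eis.toC ⟨2, 1⟩ + conj u.snd * Eis.toC ⟨1, 2⟩ = 0 := by
    apply ker1_w _ i1
    rw [← i2]
    simp only [toC_mul]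
    congr 1
    ring
  have z2 : conj u.fst * Eis.toC ⟨2, 4⟩ + conj u.snd * Eis.toC ⟨2, 4⟩ = 0 := by
    apply ker1_w _ i3
    rw [← i4]
    simp only [toC_mul]
    congr 1
    ring
  have n1 : Eis.toC ⟨2, 4⟩ ≠ 0 := by
    intro h
    exact absurd (ker1_toC_eq_zero h) (by decide)
  have n2 : Eis.toC ⟨1, -1⟩ ≠ 0 := by
    intro h
    exact absurd (ker1_toC_eq_zero h) (by decide)
  have z3 : conj u.fst + conj u.snd = 0 := by
    rw [← add_mul] at z2
    exact (mul_eq_zero.1 z2).resolve_right n1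
  have z4 : conj u.snd = - conj u.fst := by
    linear_combination z3
  have z5 : conj u.fst * Eis.toC ⟨1, -1⟩ = 0 := by
    have h : (⟨1, -1⟩ : Eis) = ⟨2, 1⟩ - ⟨1, 2⟩ := by decide
    rw [h, toC_sub]
    rw [z4] at z1
    linear_combination z1
  have z6 : conj u.fst = 0 := (mul_eq_zero.1 z5).resolve_right n2
  have z7 : conj u.snd = 0 := by rw [z4, z6, neg_zero]
  have z8 : u.fst = 0 := by
    have := congrArg conj z6
    rwa [Complex.conj_conj, map_zero] at this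
  have z9 : u.snd = 0 := by
    have := congrArg conj z7
    rwa [Complex.conj_conj, map_zero] at this
  exact (WithLp.ofLp_injective 2) (Prod.ext z8 z9)

theorem ker1_bound (x : Eis) (r : ℝ) (h : Complex.normSq (Eis.toC x) ≤ r ^ 2) :
    |(x.a : ℝ)| ≤ 2 * |r| ∧ |(x.b : ℝ)| ≤ 2 * |r| := by
  rw [ker1_normSq] at h
  have h2 : (2 * |r|) ^ 2 = 4 * r ^ 2 := by rw [mul_pow, sq_abs]; norm_num
  constructor
  · apply abs_le_of_sq_le_sq _ (by positivity)
    rw [h2]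
    nlinarith [sq_nonneg ((x.a : ℝ) - 2 * x.b), sq_nonneg (x.a : ℝ)]
  · apply abs_le_of_sq_le_sq _ (by positivity)
    rw [h2]
    nlinarith [sq_nonneg ((x.b : ℝ) - 2 * x.a), sq_nonneg (x.b : ℝ)]

theorem emb_disc (r : ℝ) : {v : VV | v ∈ Set.range emb ∧ ‖v‖ ≤ r}.Finite := by
  obtain ⟨N, hN⟩ := exists_nat_ge (2 * |r|)
  have hfin : (Set.Icc (-(N : ℤ)) N ×ˢ Set.Icc (-(N : ℤ)) N ×ˢ Set.Icc (-(N : ℤ)) N ×ˢ
      Set.Icc (-(N : ℤ)) N).Finite :=
    (Set.finite_Icc _ _).prod ((Set.finite_Icc _ _).prod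
      ((Set.finite_Icc _ _).prod (Set.finite_Icc _ _)))
  refine (hfin.image (fun q : ℤ × ℤ × ℤ × ℤ =>
    emb (⟨q.1, q.2.1⟩, ⟨q.2.2.1, q.2.2.2⟩))).subset ?_
  rintro v ⟨⟨y, rfl⟩, hv⟩
  have h0 : ‖emb y‖ ^ 2 = Complex.normSq (Eis.toC y.1) + Complex.normSq (Eis.toC y.2) := by
    rw [WithLp.prod_norm_sq_eq_of_L2, Complex.normSq_eq_norm_sq, Complex.normSq_eq_norm_sq]
    rfl
  have hr : 0 ≤ r := (norm_nonneg _).trans hv
  have h1 : ‖emb y‖ ^ 2 ≤ r ^ 2 := pow_le_pow_left₀ (norm_nonneg _) hv 2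
  have h2 := Complex.normSq_nonneg (Eis.toC y.1)
  have h3 := Complex.normSq_nonneg (Eis.toC y.2)
  obtain ⟨a1, b1⟩ := ker1_bound y.1 r (by linarith)
  obtain ⟨a2, b2⟩ := ker1_bound y.2 r (by linarith)
  have key : ∀ k : ℤ, |(k : ℝ)| ≤ 2 * |r| → k ∈ Set.Icc (-(N : ℤ)) N := by
    intro k hk
    have h4 : |(k : ℝ)| ≤ N := hk.trans hN
    have h5 := abs_le.1 h4
    constructor
    · have : (-(N : ℝ)) ≤ k := h5.1
      exact_mod_cast this
    · exact_mod_cast h5.2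
  exact ⟨(y.1.a, y.1.b, y.2.a, y.2.b), ⟨key _ a1, key _ b1, key _ a2, key _ b2⟩, rfl⟩

end Pool.Agent.H86.DM
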