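import Pool.Agent.H86.DM.Data

/-!
MP_9d29f5_al, project DM, block D: complex numbers (job DM-KER2).

`β' = -2 - ω - (ω - 1) √6/3`, `λ = (ω - 1)(1 + √6/3)`, `μ = (ω - 1)(1 - √6/3)`.
`(1, β) M = λ (1, β)`, `(1, β') M = μ (1, β')` for `M = [[1+2ω, -3-5ω], [1, -3]]`.
Use `toC_mul`, `toC_add`, `toC_re`, `toC_im`, `sq3`, `sq6` of Aff.lean.
`t0_ne`: the number is `-3 √2 i` (its real part is 0, imaginary part `-(√3 √6) …`; it is enough that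
the imaginary part is negative).
`cone_cover`: the argument of `5+4ω` is `49.1°`, `6+9ω = (2+ω)(5+4ω)` has argument `79.1°`
(`2+ω = √3 e^{30° i}`), `5+6ω` lies in between. So the six rotations of the cone
`C = cone(5+4ω, 6+9ω)` (= union of the two cones) and their images under multiplication with
`λ⁻¹` (argument `-150°`) cover the plane. Elementary: `C` consists of `d = s (5+4ω) + t (6+9ω)`;
`D = i d` etc. One way: for `d ≠ 0` there are `k ∈ Z/12` and `s, t ≥ 0`, `s + t > 0`, with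
`d = (e^{30° i})^k (s (5+4ω) + t (6+9ω))` (twelve sectors; write `d = a (5+4ω) + b (6+9ω)` with real
`a, b` and rotate); for even `k` use `ζ^(k/2)`, for odd `k` multiply by `λ`.
`cone_split`: `s (5+4ω) + t (6+9ω)` is a nonnegative combination of `5+4ω, 5+6ω` or of
`5+6ω, 6+9ω`: `5+6ω = a (5+4ω) + b (6+9ω)` with `a = 9/21`, `b = 10/21`.
-/
set_option autoImplicit false

namespace Pool.Agent.H86.DM

open Pool.Agent.H13.DM

/-- the second eigenvector -/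
noncomputable def beta' : ℂ := Eis.toC ⟨-2, -1⟩ - ((Real.sqrt 6 / 3 : ℝ) : ℂ) * Eis.toC ⟨-1, 1⟩

/-- the expanding eigenvalue -/
noncomputable def lam : ℂ := ((1 + Real.sqrt 6 / 3 : ℝ) : ℂ) * Eis.toC ⟨-1, 1⟩

/-- the contracting eigenvalue -/
noncomputable def muu : ℂ := ((1 - Real.sqrt 6 / 3 : ℝ) : ℂ) * Eis.toC ⟨-1, 1⟩

theorem dk_wsq : Eis.wC ^ 2 = -1 - Eis.wC := by
  have h3 := sq3
  apply Complex.ext
  · rw [pow_two, Complex.mul_re]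
    simp only [Eis.wC, Complex.sub_re, Complex.neg_re, Complex.one_re]
    linear_combination (-1 / 4) * h3
  · rw [pow_two, Complex.mul_im]
    simp only [Eis.wC, Complex.sub_im, Complex.neg_im, Complex.one_im]
    ring

theorem dk_toC (a b : ℤ) : Eis.toC ⟨a, b⟩ = (a : ℂ) + (b : ℂ) * Eis.wC := rfl

theorem dk_r : ((Real.sqrt 6 / 3 : ℝ) : ℂ) ^ 2 = 2 / 3 := by
  have h : (Real.sqrt 6 / 3 : ℝ) ^ 2 = 2 / 3 := by
    have := sq6
    field_simp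
    nlinarith
  rw [← Complex.ofReal_pow, h]
  push_cast
  ring

theorem dk_r0 : ((Real.sqrt 6 / 3 : ℝ) : ℂ) ≠ 0 := by
  rw [Ne, Complex.ofReal_eq_zero]
  positivity

theorem dk_norm : ‖Eis.toC ⟨-1, 1⟩‖ ^ 2 = 3 := by
  rw [← Complex.normSq_eq_norm_sq, Complex.normSq_apply, toC_re, toC_im]
  have := sq3
  push_cast
  linear_combination (1 / 4) * this

theorem lam_norm : 1 < ‖lam‖ := by
  rw [lam, norm_mul, Complex.norm_real, Real.norm_of_nonneg (by positivity)]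
  have h := dk_norm
  have h0 : 0 ≤ ‖Eis.toC ⟨-1, 1⟩‖ := norm_nonneg _
  have h1 : 1 < ‖Eis.toC ⟨-1, 1⟩‖ := by nlinarith
  have h2 : (0 : ℝ) ≤ Real.sqrt 6 / 3 := by positivity
  nlinarith

theorem muu_norm : ‖muu‖ < 1 := by
  have hs := sqrt6_bounds
  have h3 : 0 ≤ 1 - Real.sqrt 6 / 3 := by linarith [hs.2]
  rw [muu, norm_mul, Complex.norm_real, Real.norm_of_nonneg h3]
  have h := dk_norm
  have h0 : 0 ≤ ‖Eis.toC ⟨-1, 1⟩‖ := norm_nonneg _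
  have h1 : ‖Eis.toC ⟨-1, 1⟩‖ ≤ 2 := by nlinarith
  have h4 : 1 - Real.sqrt 6 / 3 < 1 / 4 := by linarith [hs.1]
  nlinarith

theorem beta_row1 : Eis.toC ⟨1, 2⟩ + beta * Eis.toC ⟨1, 0⟩ = lam := by
  simp only [beta, lam, dk_toC]
  push_cast
  ring

theorem beta_row2 : Eis.toC ⟨-3, -5⟩ + beta * Eis.toC ⟨-3, 0⟩ = lam * beta := by
  have hw := dk_wsq
  have hr := dk_r
  simp only [beta, lam, dk_toC]
  push_cast at hr ⊢
  set W := Eis.wC with hW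
  set r : ℂ := (Real.sqrt 6 : ℂ) / 3 with hr'
  linear_combination ((1 + r) - r * (1 + r)) * hw + (3 * W) * hr

theorem beta'_row1 : Eis.toC ⟨1, 2⟩ + beta' * Eis.toC ⟨1, 0⟩ = muu := by
  simp only [beta', muu, dk_toC]
  push_cast
  ring

theorem beta'_row2 : Eis.toC ⟨-3, -5⟩ + beta' * Eis.toC ⟨-3, 0⟩ = muu * beta' := by
  have hw := dk_wsq
  have hr := dk_r
  simp only [beta', muu, dk_toC]
  push_cast at hr ⊢
  set W := Eis.wC with hW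
  set r : ℂ := (Real.sqrt 6 : ℂ) / 3 with hr'
  linear_combination ((1 - r) + r * (1 - r)) * hw + (3 * W) * hr

theorem dk_ne : Eis.toC ⟨-1, 1⟩ ≠ 0 := by
  intro h
  have := dk_norm
  rw [h, norm_zero] at this
  norm_num at this

theorem beta_ne : beta ≠ beta' := by
  intro h
  have h1 : 2 * (((Real.sqrt 6 / 3 : ℝ) : ℂ) * Eis.toC ⟨-1, 1⟩) = 0 := by
    have h2 : beta - beta' = 0 := sub_eq_zero.mpr h
    simp only [beta, beta'] at h2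
    linear_combination h2
  have h3 := mul_ne_zero two_ne_zero (mul_ne_zero dk_r0 dk_ne)
  exact h3 h1

theorem t0_ne : (Eis.toC ⟨1, 0⟩ + beta' * Eis.toC ⟨2, 1⟩) -
    beta' * (beta' * Eis.toC ⟨-1, -1⟩) ≠ 0 := by
  have hw := dk_wsq
  have hr := dk_r
  have hr0 := dk_r0
  have hne : (1 + 2 * Eis.wC : ℂ) ≠ 0 := by
    intro h
    have h1 := congrArg Complex.im h
    simp [Eis.wC] at h1
  have key : (Eis.toC ⟨1, 0⟩ + beta' * Eis.toC ⟨2, 1⟩) -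
      beta' * (beta' * Eis.toC ⟨-1, -1⟩) =
      -3 * ((Real.sqrt 6 / 3 : ℝ) : ℂ) * (1 + 2 * Eis.wC) := by
    simp only [beta', dk_toC]
    push_cast at hr ⊢
    set W := Eis.wC with hW
    set r : ℂ := (Real.sqrt 6 : ℂ) / 3 with hr'
    linear_combination (-r + (1 + r) ^ 2 * (1 + W)) * hw - 3 * W * (1 + W) * hr
  rw [key]
  exact mul_ne_zero (mul_ne_zero (by norm_num) hr0) hne

/-- `d` is in one of the twelve certified cones -/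
def InCone (d : ℂ) : Prop := ∃ (ar : Fin 2) (R : Fin 6) (s t : ℝ), 0 ≤ s ∧ 0 ≤ t ∧ 0 < s + t ∧
  d = Eis.toC (Eis.unit R) * ((s : ℂ) * Eis.toC (dE ar false) + (t : ℂ) * Eis.toC (dE ar true))


theorem dk_split {d : ℂ} {R : Fin 6} {s t : ℝ} (hs : 0 ≤ s) (ht : 0 ≤ t) (hst : 0 < s + t)
    (h : d = Eis.toC (Eis.unit R) * ((s : ℂ) * Eis.toC ⟨5, 4⟩ + (t : ℂ) * Eis.toC ⟨6, 9⟩)) :
    InCone d := by
  rcases le_total (9 * t) (10 * s) with hc | hc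
  · refine ⟨0, R, s - 9 / 10 * t, 21 / 10 * t, by linarith, by linarith, by linarith, ?_⟩
    rw [h]
    simp only [dE, dk_toC]
    push_cast
    ring
  · refine ⟨1, R, 7 / 3 * s, t - 10 / 9 * s, by linarith, by linarith, by linarith, ?_⟩
    rw [h]
    simp only [dE, dk_toC]
    push_cast
    ring

/-- `d = (a + b ρ) e1`, `ρ = 2 + ω`, `e1 = 5 + 4 ω` -/
theorem dk_coord (d : ℂ) : ∃ a b : ℝ, d = (a : ℂ) * Eis.toC ⟨5, 4⟩ + (b : ℂ) * Eis.toC ⟨6, 9⟩ := by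
  have h3 := sq3
  refine ⟨(3 * d.re - d.im * Real.sqrt 3 / 3) / 7, (2 * (d.im * Real.sqrt 3) - 4 * d.re) / 21, ?_⟩
  apply Complex.ext
  · rw [Complex.add_re, Complex.re_ofReal_mul, Complex.re_ofReal_mul, toC_re, toC_re]
    push_cast
    ring
  · rw [Complex.add_im, Complex.im_ofReal_mul, Complex.im_ofReal_mul, toC_im, toC_im]
    push_cast
    linear_combination (-d.im / 3) * h3

theorem dk_pos {a b s t : ℝ} (hs : 0 ≤ s) (ht : 0 ≤ t) (h : s = 0 → t = 0 → a = 0 ∧ b = 0)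
    (hab : ¬ (a = 0 ∧ b = 0)) : 0 < s + t := by
  rcases hs.lt_or_eq with h1 | h1
  · linarith
  · rcases ht.lt_or_eq with h2 | h2
    · linarith
    · exact absurd (h h1.symm h2.symm) hab

theorem dk_six (a b : ℝ) (hab : ¬ (a = 0 ∧ b = 0))
    (h : (0 ≤ a ∧ 0 ≤ b) ∨ (0 ≤ 2 * a + 3 * b ∧ 0 ≤ -a - b) ∨ (0 ≤ a + 3 * b ∧ 0 ≤ -a - 2 * b) ∨
      (0 ≤ -a ∧ 0 ≤ -b) ∨ (0 ≤ -2 * a - 3 * b ∧ 0 ≤ a + b) ∨ (0 ≤ -a - 3 * b ∧ 0 ≤ a + 2 * b)) :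
    InCone ((a : ℂ) * Eis.toC ⟨5, 4⟩ + (b : ℂ) * Eis.toC ⟨6, 9⟩) := by
  rcases h with ⟨h1, h2⟩ | ⟨h1, h2⟩ | ⟨h1, h2⟩ | ⟨h1, h2⟩ | ⟨h1, h2⟩ | ⟨h1, h2⟩
  · refine dk_split (R := 0) h1 h2 (dk_pos h1 h2 (fun e1 e2 => ⟨by linarith, by linarith⟩) hab) ?_
    have k1 : Eis.unit 0 * ⟨5, 4⟩ = ⟨5, 4⟩ := by decide
    have k2 : Eis.unit 0 * ⟨6, 9⟩ = ⟨6, 9⟩ := by decide
    have k3 : ∀ s t : ℂ, Eis.toC (Eis.unit 0) * (s * Eis.toC ⟨5, 4⟩ + t * Eis.toC ⟨6, 9⟩) =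
        s * Eis.toC (Eis.unit 0 * ⟨5, 4⟩) + t * Eis.toC (Eis.unit 0 * ⟨6, 9⟩) := by
      intro s t
      rw [toC_mul, toC_mul]
      ring
    rw [k3, k1, k2]
  · refine dk_split (R := 1) h1 h2 (dk_pos h1 h2 (fun e1 e2 => ⟨by linarith, by linarith⟩) hab) ?_
    have k1 : Eis.unit 1 * ⟨5, 4⟩ = ⟨1, 5⟩ := by decide
    have k2 : Eis.unit 1 * ⟨6, 9⟩ = ⟨-3, 6⟩ := by decide
    have k3 : ∀ s t : ℂ, Eis.toC (Eis.unit 1) * (s * Eis.toC ⟨5, 4⟩ + t * Eis.toC ⟨6, 9⟩) =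
        s * Eis.toC (Eis.unit 1 * ⟨5, 4⟩) + t * Eis.toC (Eis.unit 1 * ⟨6, 9⟩) := by
      intro s t
      rw [toC_mul, toC_mul]
      ring
    rw [k3, k1, k2]
    simp only [dk_toC]
    push_cast
    ring
  · refine dk_split (R := 2) h1 h2 (dk_pos h1 h2 (fun e1 e2 => ⟨by linarith, by linarith⟩) hab) ?_
    have k1 : Eis.unit 2 * ⟨5, 4⟩ = ⟨-4, 1⟩ := by decide
    have k2 : Eis.unit 2 * ⟨6, 9⟩ = ⟨-9, -3⟩ := by decide
    have k3 : ∀ s t : ℂ, Eis.toC (Eis.unit 2) * (s * Eis.toC ⟨5, 4⟩ + t * Eis.toC ⟨6, 9⟩) =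
        s * Eis.toC (Eis.unit 2 * ⟨5, 4⟩) + t * Eis.toC (Eis.unit 2 * ⟨6, 9⟩) := by
      intro s t
      rw [toC_mul, toC_mul]
      ring
    rw [k3, k1, k2]
    simp only [dk_toC]
    push_cast
    ring
  · refine dk_split (R := 3) h1 h2 (dk_pos h1 h2 (fun e1 e2 => ⟨by linarith, by linarith⟩) hab) ?_
    have k1 : Eis.unit 3 * ⟨5, 4⟩ = ⟨-5, -4⟩ := by decide
    have k2 : Eis.unit 3 * ⟨6, 9⟩ = ⟨-6, -9⟩ := by decide
    have k3 : ∀ s t : ℂ, Eis.toC (Eis.unit 3) * (s * Eis.toC ⟨5, 4⟩ + t * Eis.toC ⟨6, 9⟩) =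
        s * Eis.toC (Eis.unit 3 * ⟨5, 4⟩) + t * Eis.toC (Eis.unit 3 * ⟨6, 9⟩) := by
      intro s t
      rw [toC_mul, toC_mul]
      ring
    rw [k3, k1, k2]
    simp only [dk_toC]
    push_cast
    ring
  · refine dk_split (R := 4) h1 h2 (dk_pos h1 h2 (fun e1 e2 => ⟨by linarith, by linarith⟩) hab) ?_
    have k1 : Eis.unit 4 * ⟨5, 4⟩ = ⟨-1, -5⟩ := by decide
    have k2 : Eis.unit 4 * ⟨6, 9⟩ = ⟨3, -6⟩ := by decide
    have k3 : ∀ s t : ℂ, Eis.toC (Eis.unit 4) * (s * Eis.toC ⟨5, 4⟩ + t * Eis.toC ⟨6, 9⟩) =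
        s * Eis.toC (Eis.unit 4 * ⟨5, 4⟩) + t * Eis.toC (Eis.unit 4 * ⟨6, 9⟩) := by
      intro s t
      rw [toC_mul, toC_mul]
      ring
    rw [k3, k1, k2]
    simp only [dk_toC]
    push_cast
    ring
  · refine dk_split (R := 5) h1 h2 (dk_pos h1 h2 (fun e1 e2 => ⟨by linarith, by linarith⟩) hab) ?_
    have k1 : Eis.unit 5 * ⟨5, 4⟩ = ⟨4, -1⟩ := by decide
    have k2 : Eis.unit 5 * ⟨6, 9⟩ = ⟨9, 3⟩ := by decide
    have k3 : ∀ s t : ℂ, Eis.toC (Eis.unit 5) * (s * Eis.toC ⟨5, 4⟩ + t * Eis.toC ⟨6, 9⟩) =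
        s * Eis.toC (Eis.unit 5 * ⟨5, 4⟩) + t * Eis.toC (Eis.unit 5 * ⟨6, 9⟩) := by
      intro s t
      rw [toC_mul, toC_mul]
      ring
    rw [k3, k1, k2]
    simp only [dk_toC]
    push_cast
    ring

theorem dk_odd (a b : ℝ) : ((a : ℂ) * Eis.toC ⟨5, 4⟩ + (b : ℂ) * Eis.toC ⟨6, 9⟩) * lam =
    (((1 + Real.sqrt 6 / 3) * (-3 * a - 3 * b) : ℝ) : ℂ) * Eis.toC ⟨5, 4⟩ +
    (((1 + Real.sqrt 6 / 3) * a : ℝ) : ℂ) * Eis.toC ⟨6, 9⟩ := by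
  have k1 : (⟨-1, 1⟩ : Eis) * ⟨5, 4⟩ = ⟨-9, -3⟩ := by decide
  have k2 : (⟨-1, 1⟩ : Eis) * ⟨6, 9⟩ = ⟨-15, -12⟩ := by decide
  have k3 : ((a : ℂ) * Eis.toC ⟨5, 4⟩ + (b : ℂ) * Eis.toC ⟨6, 9⟩) * lam =
      ((1 + Real.sqrt 6 / 3 : ℝ) : ℂ) * ((a : ℂ) * Eis.toC ((⟨-1, 1⟩ : Eis) * ⟨5, 4⟩) +
        (b : ℂ) * Eis.toC ((⟨-1, 1⟩ : Eis) * ⟨6, 9⟩)) := by
    rw [toC_mul, toC_mul, lam]
    ring
  rw [k3, k1, k2]
  simp only [dk_toC]
  push_cast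
  ring

theorem cone_cover (d : ℂ) (hd : d ≠ 0) : InCone d ∨ InCone (d * lam) := by
  obtain ⟨a, b, rfl⟩ := dk_coord d
  have hab : ¬ (a = 0 ∧ b = 0) := by
    rintro ⟨rfl, rfl⟩
    apply hd
    simp
  have hq : (0 : ℝ) < 1 + Real.sqrt 6 / 3 := by positivity
  set q : ℝ := 1 + Real.sqrt 6 / 3 with hqd
  have hab2 : ¬ (q * (-3 * a - 3 * b) = 0 ∧ q * a = 0) := by
    rintro ⟨h1, h2⟩
    have h3 : a = 0 := by
      rcases mul_eq_zero.mp h2 with h | h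
      · exact absurd h hq.ne'
      · exact h
    rcases mul_eq_zero.mp h1 with h | h
    · exact absurd h hq.ne'
    · exact hab ⟨h3, by linarith⟩
  have hodd : ∀ P : Prop, P → P := fun _ h => h
  rw [dk_odd]
  rcases le_or_gt 0 b with hb | hb
  · rcases le_or_gt 0 a with h0 | h0
    · exact Or.inl (dk_six a b hab (Or.inl ⟨h0, hb⟩))
    rcases le_or_gt 0 (a + b) with h1 | h1
    · right
      refine dk_six _ _ hab2 (Or.inr (Or.inr (Or.inr (Or.inl ⟨?_, ?_⟩))))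
      · nlinarith [mul_nonneg hq.le h1]
      · nlinarith [mul_pos hq (neg_pos.mpr h0)]
    rcases le_or_gt 0 (2 * a + 3 * b) with h2 | h2
    · exact Or.inl (dk_six a b hab (Or.inr (Or.inl ⟨h2, by linarith⟩)))
    rcases le_or_gt 0 (a + 2 * b) with h3 | h3
    · right
      refine dk_six _ _ hab2 (Or.inr (Or.inr (Or.inr (Or.inr (Or.inl ⟨?_, ?_⟩)))))
      · nlinarith [mul_nonneg hq.le h3]
      · nlinarith [mul_pos hq (neg_pos.mpr h2)]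
    rcases le_or_gt 0 (a + 3 * b) with h4 | h4
    · exact Or.inl (dk_six a b hab (Or.inr (Or.inr (Or.inl ⟨h4, by linarith⟩))))
    · right
      refine dk_six _ _ hab2 (Or.inr (Or.inr (Or.inr (Or.inr (Or.inr ⟨?_, ?_⟩)))))
      · nlinarith [mul_nonneg hq.le hb]
      · nlinarith [mul_pos hq (neg_pos.mpr h4)]
  · rcases le_or_gt a 0 with h0 | h0
    · exact Or.inl (dk_six a b hab (Or.inr (Or.inr (Or.inr (Or.inl ⟨by linarith, by linarith⟩)))))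
    rcases le_or_gt (a + b) 0 with h1 | h1
    · right
      refine dk_six _ _ hab2 (Or.inl ⟨?_, ?_⟩)
      · nlinarith [mul_nonneg hq.le (neg_nonneg.mpr h1)]
      · nlinarith [mul_pos hq h0]
    rcases le_or_gt (2 * a + 3 * b) 0 with h2 | h2
    · exact Or.inl (dk_six a b hab (Or.inr (Or.inr (Or.inr (Or.inr (Or.inl
        ⟨by linarith, by linarith⟩))))))
    rcases le_or_gt (a + 2 * b) 0 with h3 | h3
    · right
      refine dk_six _ _ hab2 (Or.inr (Or.inl ⟨?_, ?_⟩))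
      · nlinarith [mul_nonneg hq.le (neg_nonneg.mpr h3)]
      · nlinarith [mul_pos hq h2]
    rcases le_or_gt (a + 3 * b) 0 with h4 | h4
    · exact Or.inl (dk_six a b hab (Or.inr (Or.inr (Or.inr (Or.inr (Or.inr
        ⟨by linarith, by linarith⟩))))))
    · right
      refine dk_six _ _ hab2 (Or.inr (Or.inr (Or.inl ⟨?_, ?_⟩)))
      · nlinarith [mul_pos hq (neg_pos.mpr hb)]
      · nlinarith [mul_pos hq h4]


end Pool.Agent.H86.DM
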