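import Pool.Agent.H86.DM.Conn
import Pool.Agent.H86.DM.Auto
import Pool.Agent.H86.DM.Ker1
import Pool.Agent.H86.DM.Ker2
import Pool.Agent.H13.DM.BNS.FG
import Pool.Agent.H13.DM.BNS.Dyn

/-!
MP_9d29f5_al, project DM, block D: `A.ker` is finitely generated (job DM-KER3, assembly; use the
statements of Conn, Auto, Ker1, Ker2 and of H13/DM/BNS as black boxes).

PAPER PROOF. `V = VV`, `φ g = emb (tv A g)` on `Kp A` (additive by `tv_mul`, `emb_add`). For `u : VV`
let `d1 = conj u.fst`, `d2 = conj u.snd`, so `⟪u, φ g⟫ = Re (d1 c1 + d2 c2)` (`inner_emb`).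
* `G = {u | u ≠ 0 ∧ Conn (XK A hA) (fun g => ⟪u, φ g⟫)}`. Open: `conn_open` (`hu₀` from
  `emb_span`). Scaling by `c > 0`: the superlevel sets are the same.
* `T`: row vector `(d1, d2) M`, `M = [[1+2ω, -3-5ω], [1, -3]]`: `(d1', d2') =
  ((1+2ω) d1 + d2, (-3-5ω) d1 - 3 d2)`. With `σ` from `exists_auto_s` restricted to `Kp A` (it
  preserves `n`, hence so does `σ⁻¹`): `⟪T u, φ g⟫ = ⟪u, φ (σ g)⟫`, and `conn_comp` for `σ⁻¹` gives
  `T u ∈ G → u ∈ G`. Same for `T0` with `exists_auto_t`, `M0 = [[0, 1], [-1-ω, 2+ω]]`: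
  `(d1', d2') = ((-1-ω) d2, d1 + (2+ω) d2)`.
* `P u = d2 - β' d1`, `Q u = d2 - β d1` (real linear in `u`), `P (T u) = λ P u`, `Q (T u) = μ Q u`
  (`beta_row1` … : e.g. `P (T u) = (-3-5ω) d1 - 3 d2 - β' ((1+2ω) d1 + d2)
  = -(3+β') d2 + (-3-5ω-(1+2ω)β') d1`, and the rows say `1+2ω+β' = μ`, `-3-5ω-3β' = μβ'`, the
  trace `-2+2ω = λ+μ`, determinant `λμ`; `beta`, `beta'` are the roots). `hinj`: `beta_ne`. If
  `P u = 0`, `u ≠ 0`: `d2 = β' d1`, `d1 ≠ 0` and `P (T0 u) = d1 * (number of t0_ne) ≠ 0`.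
* `hE`: `Q u = 0`: `(d1, d2) = d1 (1, β)`, `d1 ≠ 0`, `⟪u, φ g⟫ = chi d1 (tv A g)`: by `cone_cover`
  `InCone d1` (use `conn_arc`) or `InCone (d1 λ)` (then `T u ∈ G` by `conn_arc`, so `u ∈ G`).
* `dyn` gives all `u ≠ 0`, then `ker_fg` with `N = {g : Kp A | φ g = 0}`; `A.ker` is the image of
  `N` under the inclusion (`Subgroup.FG.map` or so; `emb_injective`).
-/
set_option autoImplicit false

namespace Pool.Agent.H86.DM

open Pool.Agent.H13.DM

open ComplexConjugate

/-- the map `u ↦ u'` with `(d1', d2') = (d1, d2) M` -/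
private noncomputable def kerT (m11 m12 m21 m22 : ℂ) : VV →ₗ[ℝ] VV where
  toFun u := WithLp.toLp 2 (conj m11 * u.fst + conj m21 * u.snd,
    conj m12 * u.fst + conj m22 * u.snd)
  map_add' u v := by
    refine (WithLp.ext_iff _).2 (Prod.ext ?_ ?_)
    · simp; ring
    · simp; ring
  map_smul' c u := by
    refine (WithLp.ext_iff _).2 (Prod.ext ?_ ?_)
    · simp; ring
    · simp; ring

private theorem kerT_fst (m11 m12 m21 m22 : ℂ) (u : VV) :
    conj (kerT m11 m12 m21 m22 u).fst = m11 * conj u.fst + m21 * conj u.snd := by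
  simp [kerT]

private theorem kerT_snd (m11 m12 m21 m22 : ℂ) (u : VV) :
    conj (kerT m11 m12 m21 m22 u).snd = m12 * conj u.fst + m22 * conj u.snd := by
  simp [kerT]

/-- the linear form `u ↦ d2 - b d1` -/
private noncomputable def kerP (b : ℂ) : VV →ₗ[ℝ] ℂ where
  toFun u := conj u.snd - b * conj u.fst
  map_add' u v := by simp; ring
  map_smul' c u := by simp; ring

private theorem kerP_apply (b : ℂ) (u : VV) : kerP b u = conj u.snd - b * conj u.fst := rfl

private theorem ker_ext {u : VV} (h1 : conj u.fst = 0) (h2 : conj u.snd = 0) : u = 0 := by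
  have h1' : u.fst = 0 := by
    have := congrArg conj h1
    simpa using this
  have h2' : u.snd = 0 := by
    have := congrArg conj h2
    simpa using this
  refine (WithLp.ext_iff _).2 (Prod.ext ?_ ?_)
  · exact h1'
  · exact h2'

/-- restriction of an automorphism to `Kp A` -/
private def kerR (A : Kg →* Aff) (σ : Kg ≃* Kg) (h : ∀ g, (A (σ g)).n = (A g).n) :
    Kp A ≃* Kp A where
  toFun g := ⟨σ g, (h g).trans g.2⟩
  invFun g := ⟨σ.symm g, by
    have h1 := h (σ.symm g)
    rw [MulEquiv.apply_symm_apply] at h1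
    exact h1.symm.trans g.2⟩
  left_inv g := Subtype.ext (σ.symm_apply_apply g)
  right_inv g := Subtype.ext (σ.apply_symm_apply g)
  map_mul' g k := Subtype.ext (map_mul σ (g : Kg) k)

private theorem ker_conn_smul {K : Type*} [Group K] {X : Set K} {χ : K → ℝ} (h : Conn X χ) (c : ℝ)
    (hc : 0 < c) : Conn X (fun g => c * χ g) := by
  intro a b t ha hb
  have e : ∀ g, t < c * χ g ↔ t / c < χ g := fun g => by rw [div_lt_iff₀' hc]
  have := h a b (t / c) ((e a).1 ha) ((e b).1 hb)
  refine this.mono ?_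
  intro g hg
  exact (e g).2 hg

private theorem ker_toC_int (k : ℤ) : Eis.toC ⟨k, 0⟩ = k := by
  apply Complex.ext
  · rw [toC_re]; simp
  · rw [toC_im]; simp

theorem kerA_fg (A : Kg →* Aff) (hA : IsAff A) : A.ker.FG := by
  classical
  set φ : Kp A → VV := fun g => emb (tv A g) with hφdef
  have hφ : ∀ g h : Kp A, φ (g * h) = φ g + φ h := by
    intro g h
    have h1 := tv_mul A (g := (g : Kg)) (h := (h : Kg)) g.2
    change emb (tv A ((g : Kg) * (h : Kg))) = _
    rw [h1, emb_add]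
  have hX := XK_inv A hA
  have hfin := XK_finite A hA
  have hgen := XK_closure A hA
  have hspan : Submodule.span ℝ (Set.range φ) = ⊤ := emb_span A hA
  set G : Set VV := {u | u ≠ 0 ∧ Conn (XK A hA) (fun g => inner ℝ u (φ g))} with hG
  have hne : ∀ u : VV, u ≠ 0 → ∃ g, inner ℝ u (φ g) ≠ 0 := by
    intro u hu
    by_contra hcon
    push Not at hcon
    apply hu
    have h2 : ∀ v : VV, inner ℝ u v = 0 := by
      intro v
      have hv : v ∈ Submodule.span ℝ (Set.range φ) := by rw [hspan]; trivial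
      induction hv using Submodule.span_induction with
      | mem x hx =>
        obtain ⟨g, rfl⟩ := hx
        exact hcon g
      | zero => exact inner_zero_right _
      | add x y _ _ hx hy => rw [inner_add_right, hx, hy, add_zero]
      | smul a x _ hx => rw [inner_smul_right, hx, mul_zero]
    exact inner_self_eq_zero.mp (h2 u)
  have hopen : IsOpen G := by
    rw [isOpen_iff_mem_nhds]
    intro u hu
    have h1 := conn_open hX hfin hgen φ hφ u (hne u hu.1) hu.2
    have h2 : ∀ᶠ v in nhds u, v ≠ 0 := isOpen_ne.mem_nhds hu.1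
    filter_upwards [h1, h2] with v hv1 hv2
    exact ⟨hv2, hv1⟩
  have hscale : ∀ c : ℝ, 0 < c → ∀ u ∈ G, c • u ∈ G := by
    intro c hc u hu
    refine ⟨smul_ne_zero hc.ne' hu.1, ?_⟩
    have h1 := ker_conn_smul hu.2 c hc
    simpa only [real_inner_smul_left] using h1
  have hinner : ∀ (u : VV) (g : Kp A), inner ℝ u (φ g) =
      (conj u.fst * Eis.toC (A g).c1 + conj u.snd * Eis.toC (A g).c2).re := fun u g =>
    inner_emb u (tv A g)
  have hback : ∀ (m11 m12 m21 m22 : Eis) (σ : Kg ≃* Kg), (∀ g : Kg, (A (σ g)).n = (A g).n ∧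
      ((A g).n = 0 → (A (σ g)).c1 = m11 * (A g).c1 + m12 * (A g).c2 ∧
      (A (σ g)).c2 = m21 * (A g).c1 + m22 * (A g).c2)) →
      ∀ u, kerT (Eis.toC m11) (Eis.toC m12) (Eis.toC m21) (Eis.toC m22) u ∈ G → u ∈ G := by
    intro m11 m12 m21 m22 σ hσ u hu
    refine ⟨?_, ?_⟩
    · rintro rfl
      exact hu.1 (map_zero _)
    · have h1 := conn_comp hX hfin hgen (χ := fun g => inner ℝ
        (kerT (Eis.toC m11) (Eis.toC m12) (Eis.toC m21) (Eis.toC m22) u) (φ g))
        (fun g h => by simp only [hφ, inner_add_right]) hu.2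
        (kerR A σ fun g => (hσ g).1).symm
      have h2 : (fun g : Kp A => (inner ℝ
          (kerT (Eis.toC m11) (Eis.toC m12) (Eis.toC m21) (Eis.toC m22) u)
          (φ ((kerR A σ fun g => (hσ g).1).symm g)) : ℝ)) = fun g => inner ℝ u (φ g) := by
        funext g
        obtain ⟨k, rfl⟩ := (kerR A σ fun g => (hσ g).1).surjective g
        rw [MulEquiv.symm_apply_apply, hinner, hinner, kerT_fst, kerT_snd]
        have h3 := (hσ (k : Kg)).2 k.2
        change _ = (conj u.fst * Eis.toC (A (σ (k : Kg))).c1 +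
          conj u.snd * Eis.toC (A (σ (k : Kg))).c2).re
        rw [h3.1, h3.2, toC_add, toC_add, toC_mul, toC_mul, toC_mul, toC_mul]
        congr 1
        ring
      rw [h2] at h1
      exact h1
  obtain ⟨σ, hσ⟩ := exists_auto_s A hA
  obtain ⟨τ, hτ⟩ := exists_auto_t A hA
  set T := kerT (Eis.toC ⟨1, 2⟩) (Eis.toC ⟨-3, -5⟩) (Eis.toC ⟨1, 0⟩) (Eis.toC ⟨-3, 0⟩) with hT
  set T0 := kerT (Eis.toC 0) (Eis.toC 1) (Eis.toC ⟨-1, -1⟩) (Eis.toC ⟨2, 1⟩) with hT0
  have hTG : ∀ u, T u ∈ G → u ∈ G := hback _ _ _ _ σ hσ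
  have hT0G : ∀ u, T0 u ∈ G → u ∈ G := hback _ _ _ _ τ (fun g => by
    refine ⟨(hτ g).1, fun h => ?_⟩
    rw [zero_mul, zero_add, one_mul]
    exact (hτ g).2 h)
  have e10 : Eis.toC ⟨1, 0⟩ = 1 := by rw [ker_toC_int]; simp
  have e30 : Eis.toC ⟨-3, 0⟩ = -3 := by rw [ker_toC_int]; simp
  have etr : Eis.toC ⟨1, 2⟩ - 3 = lam + muu := by
    have h1 : Eis.toC ⟨1, 2⟩ - 3 = 2 * Eis.toC ⟨-1, 1⟩ := by
      apply Complex.ext
      · simp only [Complex.sub_re, Complex.mul_re, toC_re, toC_im]
        norm_num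
      · simp only [Complex.sub_im, Complex.mul_im, toC_re, toC_im]
        norm_num
    rw [h1, lam, muu]
    push_cast
    ring
  have r1 := beta_row1
  have r2 := beta_row2
  have r1' := beta'_row1
  have r2' := beta'_row2
  rw [e10] at r1 r1'
  rw [e30] at r2 r2'
  have hP : ∀ u, kerP beta' (T u) = lam * kerP beta' u := by
    intro u
    rw [kerP_apply, kerP_apply, hT, kerT_fst, kerT_snd, e10, e30]
    have l1 : lam = -3 - beta' := by linear_combination r1' - etr
    have l2 : Eis.toC ⟨-3, -5⟩ = muu * beta' + 3 * beta' := by linear_combination r2'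
    have l3 : Eis.toC ⟨1, 2⟩ = muu - beta' := by linear_combination r1'
    rw [l2, l3, l1]
    ring
  have hQ : ∀ u, kerP beta (T u) = muu * kerP beta u := by
    intro u
    rw [kerP_apply, kerP_apply, hT, kerT_fst, kerT_snd, e10, e30]
    have l1 : muu = -3 - beta := by linear_combination r1 - etr
    have l2 : Eis.toC ⟨-3, -5⟩ = lam * beta + 3 * beta := by linear_combination r2
    have l3 : Eis.toC ⟨1, 2⟩ = lam - beta := by linear_combination r1
    rw [l2, l3, l1]
    ring
  have hinj : ∀ u, kerP beta' u = 0 → kerP beta u = 0 → u = 0 := by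
    intro u h1 h2
    rw [kerP_apply] at h1 h2
    have h3 : (beta - beta') * conj u.fst = 0 := by linear_combination h1 - h2
    have h4 : conj u.fst = 0 := by
      rcases mul_eq_zero.1 h3 with h | h
      · exact absurd (sub_eq_zero.1 h) beta_ne
      · exact h
    refine ker_ext h4 ?_
    rw [h4] at h1
    linear_combination h1
  have hchi : ∀ u : VV, kerP beta u = 0 → ∀ g : Kp A,
      inner ℝ u (φ g) = chi (conj u.fst) (tv A g) := by
    intro u hu g
    rw [kerP_apply] at hu
    rw [hinner, chi]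
    have h1 : conj u.snd = beta * conj u.fst := by linear_combination hu
    rw [h1]
    congr 1
    change _ = conj u.fst * (Eis.toC (A g).c1 + beta * Eis.toC (A g).c2)
    ring
  have hd0 : ∀ (b : ℂ) (u : VV), u ≠ 0 → kerP b u = 0 → conj u.fst ≠ 0 := by
    intro b u hu hb h0
    rw [kerP_apply, h0] at hb
    exact hu (ker_ext h0 (by linear_combination hb))
  have hin : ∀ u : VV, u ≠ 0 → kerP beta u = 0 → InCone (conj u.fst) → u ∈ G := by
    intro u hu hQu hI
    obtain ⟨ar, R, s, t, hs, ht, hst, hd⟩ := hI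
    refine ⟨hu, ?_⟩
    have h1 := conn_arc A hA ar R s t hs ht hst
    rw [← hd] at h1
    have h2 : (fun g : Kp A => (inner ℝ u (φ g) : ℝ)) = fun g : Kp A => chi (conj u.fst) (tv A g) :=
      funext (hchi u hQu)
    rw [h2]
    exact h1
  have hE : ∀ u, u ≠ 0 → kerP beta u = 0 → u ∈ G := by
    intro u hu hQu
    have hd := hd0 beta u hu hQu
    rcases cone_cover _ hd with h | h
    · exact hin u hu hQu h
    · apply hTG
      have h1 : conj (T u).fst = conj u.fst * lam := by
        rw [hT, kerT_fst, e10]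
        rw [kerP_apply] at hQu
        linear_combination hQu + conj u.fst * r1
      have hlam : lam ≠ 0 := by
        intro h0
        have := lam_norm
        rw [h0, norm_zero] at this
        linarith
      refine hin (T u) ?_ ?_ ?_
      · intro h0
        rw [h0] at h1
        have : conj u.fst * lam = 0 := by rw [← h1]; simp
        exact mul_ne_zero hd hlam this
      · rw [hQ, hQu, mul_zero]
      · rw [h1]; exact h
  have h0 : ∀ u, u ≠ 0 → kerP beta' u = 0 → kerP beta' (T0 u) ≠ 0 := by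
    intro u hu hPu hcon
    have hd := hd0 beta' u hu hPu
    rw [kerP_apply, hT0, kerT_fst, kerT_snd, toC_zero, toC_one] at hcon
    rw [kerP_apply] at hPu
    have ht := t0_ne
    rw [e10] at ht
    have h1 : conj u.fst * ((1 + beta' * Eis.toC ⟨2, 1⟩) -
        beta' * (beta' * Eis.toC ⟨-1, -1⟩)) = 0 := by
      linear_combination hcon - (Eis.toC ⟨2, 1⟩ - beta' * Eis.toC ⟨-1, -1⟩) * hPu
    exact mul_ne_zero hd ht h1
  have hall := dyn G hopen hscale T T0 hTG hT0G (kerP beta') (kerP beta) lam muu hP hQ lam_norm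
    muu_norm hinj hE h0
  have hN : ∀ g : Kp A, g ∈ A.ker.subgroupOf (Kp A) ↔ φ g = 0 := by
    intro g
    rw [Subgroup.mem_subgroupOf, MonoidHom.mem_ker]
    constructor
    · intro h
      change emb ((A g).c1, (A g).c2) = 0
      rw [h]
      exact emb_zero
    · intro h
      have h1 : tv A g = 0 := emb_injective (h.trans emb_zero.symm)
      have h2 : (A g).n = 0 := g.2
      refine Aff.ext h2 ?_ ?_
      · exact congrArg Prod.fst h1
      · exact congrArg Prod.snd h1
  have hfg : (A.ker.subgroupOf (Kp A)).FG :=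
    ker_fg hX hfin hgen φ hφ hspan (fun r => (emb_disc r).subset (by
      rintro v ⟨⟨g, rfl⟩, hv⟩
      exact ⟨⟨_, rfl⟩, hv⟩)) (fun u hu => (hall u hu).2) _ hN
  have hle : A.ker ≤ Kp A := by
    intro g hg
    rw [MonoidHom.mem_ker] at hg
    change (A g).n = 0
    rw [hg]
    rfl
  obtain ⟨F, hF⟩ := hfg
  refine ⟨F.image (Kp A).subtype, ?_⟩
  rw [Finset.coe_image, ← MonoidHom.map_closure, hF, Subgroup.subgroupOf_map_subtype,
    inf_eq_left.2 hle]

end Pool.Agent.H86.DM
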