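import Pool.Agent.H13.DM.Defs

/-!
MP_9d29f5_al, project DM, block D (helper86): affine maps `y ↦ ζ^n y + c` of `Z[ω]²`,
the four points `p_i`, the functionals `chi D y = Re (D (y₁ + β y₂))`,
`β = -2 - ω + (ω - 1) √6/3`.
-/
set_option autoImplicit false

namespace Pool.Agent.H86.DM

open Pool.Agent.H13.DM

/-- the affine map `y ↦ ζ^n y + (c1, c2)` -/
@[ext] structure Aff where
  n : Fin 6
  c1 : Eis
  c2 : Eis
deriving DecidableEq

theorem unit_add : ∀ a b : Fin 6, Eis.unit (a + b) = Eis.unit a * Eis.unit b := by decide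

theorem unit_zero : Eis.unit 0 = 1 := rfl

namespace Aff

instance : Mul Aff := ⟨fun x y => ⟨x.n + y.n, x.c1 + Eis.unit x.n * y.c1,
  x.c2 + Eis.unit x.n * y.c2⟩⟩
instance : One Aff := ⟨⟨0, 0, 0⟩⟩
instance : Inv Aff := ⟨fun x => ⟨-x.n, -(Eis.unit (-x.n) * x.c1), -(Eis.unit (-x.n) * x.c2)⟩⟩

@[simp] theorem mul_n (x y : Aff) : (x * y).n = x.n + y.n := rfl
@[simp] theorem mul_c1 (x y : Aff) : (x * y).c1 = x.c1 + Eis.unit x.n * y.c1 := rfl
@[simp] theorem mul_c2 (x y : Aff) : (x * y).c2 = x.c2 + Eis.unit x.n * y.c2 := rfl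
@[simp] theorem one_n : (1 : Aff).n = 0 := rfl
@[simp] theorem one_c1 : (1 : Aff).c1 = 0 := rfl
@[simp] theorem one_c2 : (1 : Aff).c2 = 0 := rfl
@[simp] theorem inv_n (x : Aff) : (x⁻¹).n = -x.n := rfl
@[simp] theorem inv_c1 (x : Aff) : (x⁻¹).c1 = -(Eis.unit (-x.n) * x.c1) := rfl
@[simp] theorem inv_c2 (x : Aff) : (x⁻¹).c2 = -(Eis.unit (-x.n) * x.c2) := rfl

instance : Group Aff where
  mul_assoc x y z := by
    ext1
    · simp [add_assoc]
    · simp only [mul_c1, mul_n, unit_add]; ring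
    · simp only [mul_c2, mul_n, unit_add]; ring
  one_mul x := by
    ext1
    · simp
    · simp only [mul_c1, one_c1, one_n, unit_zero]; ring
    · simp only [mul_c2, one_c2, one_n, unit_zero]; ring
  mul_one x := by
    ext1
    · simp
    · simp only [mul_c1, one_c1]; ring
    · simp only [mul_c2, one_c2]; ring
  inv_mul_cancel x := by
    ext1
    · simp
    · simp only [mul_c1, inv_c1, inv_n, one_c1]; ring
    · simp only [mul_c2, inv_c2, inv_n, one_c2]; ring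

/-- application -/
def app (x : Aff) (y : Eis × Eis) : Eis × Eis :=
  (x.c1 + Eis.unit x.n * y.1, x.c2 + Eis.unit x.n * y.2)

theorem app_mul (x y : Aff) (p : Eis × Eis) : (x * y).app p = x.app (y.app p) := by
  ext1
  · simp only [app, mul_c1, mul_n, unit_add]; ring
  · simp only [app, mul_c2, mul_n, unit_add]; ring

end Aff

/-- the four fixed points -/
def pt : Fin 4 → Eis × Eis
  | 0 => (⟨1, 1⟩, ⟨0, 0⟩)
  | 1 => (⟨0, 0⟩, ⟨0, -1⟩)
  | 2 => (⟨0, 0⟩, ⟨0, 0⟩)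
  | 3 => (⟨1, 2⟩, ⟨1, 2⟩)

/-- the rotations `x_i` as affine maps: rotation by `ζ²`, `ζ²`, `ζ³`, `ζ⁵` about `p_i` -/
def ax : Fin 4 → Aff
  | 0 => ⟨2, ⟨2, 1⟩, ⟨0, 0⟩⟩
  | 1 => ⟨2, ⟨0, 0⟩, ⟨-1, -2⟩⟩
  | 2 => ⟨3, ⟨0, 0⟩, ⟨0, 0⟩⟩
  | 3 => ⟨5, ⟨-1, 1⟩, ⟨-1, 1⟩⟩

theorem ax_app : ∀ i, (ax i).app (pt i) = pt i := by decide

/-! ### the embedding -/

theorem toC_re (x : Eis) : (Eis.toC x).re = x.a - x.b / 2 := by
  simp [Eis.toC, Eis.wC]; ring

theorem toC_im (x : Eis) : (Eis.toC x).im = x.b * (Real.sqrt 3 / 2) := by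
  simp [Eis.toC, Eis.wC]

theorem sq3 : Real.sqrt 3 * Real.sqrt 3 = 3 := Real.mul_self_sqrt (by norm_num)
theorem sq6 : Real.sqrt 6 * Real.sqrt 6 = 6 := Real.mul_self_sqrt (by norm_num)

theorem toC_add (x y : Eis) : Eis.toC (x + y) = Eis.toC x + Eis.toC y := by
  simp [Eis.toC]; ring

theorem toC_sub (x y : Eis) : Eis.toC (x - y) = Eis.toC x - Eis.toC y := by
  simp [Eis.toC]; ring

theorem toC_mul (x y : Eis) : Eis.toC (x * y) = Eis.toC x * Eis.toC y := by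
  have h3 := sq3
  apply Complex.ext
  · rw [Complex.mul_re, toC_re, toC_re, toC_re, toC_im, toC_im]
    simp only [Eis.mul_a, Eis.mul_b]
    push_cast
    linear_combination ((x.b : ℝ) * y.b / 4) * h3
  · rw [Complex.mul_im, toC_im, toC_re, toC_re, toC_im, toC_im]
    simp only [Eis.mul_b]
    push_cast
    ring

theorem toC_zero : Eis.toC 0 = 0 := by simp [Eis.toC]
theorem toC_one : Eis.toC 1 = 1 := by simp [Eis.toC]

/-- `β = -2 - ω + (ω - 1) √6/3` -/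
noncomputable def beta : ℂ := Eis.toC ⟨-2, -1⟩ + ((Real.sqrt 6 / 3 : ℝ) : ℂ) * Eis.toC ⟨-1, 1⟩

/-- the value of the functional at the point `y` -/
noncomputable def chi (D : ℂ) (y : Eis × Eis) : ℝ :=
  (D * (Eis.toC y.1 + beta * Eis.toC y.2)).re

theorem chi_add (D : ℂ) (y z : Eis × Eis) : chi D (y + z) = chi D y + chi D z := by
  simp only [chi, Prod.fst_add, Prod.snd_add, toC_add]
  rw [← Complex.add_re]
  congr 1
  ring

theorem chi_sub (D : ℂ) (y z : Eis × Eis) : chi D (y - z) = chi D y - chi D z := by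
  simp only [chi, Prod.fst_sub, Prod.snd_sub, toC_sub]
  rw [← Complex.sub_re]
  congr 1
  ring

theorem chi_app (D : ℂ) (x : Aff) (y z : Eis × Eis) :
    chi D (x.app y) - chi D (x.app z) = chi (D * Eis.toC (Eis.unit x.n)) (y - z) := by
  rw [← chi_sub]
  simp only [chi, Aff.app, Prod.fst_sub, Prod.snd_sub]
  congr 1
  simp only [toC_sub, toC_add, toC_mul]
  ring

theorem chi_comb (s t : ℝ) (D D' : ℂ) (y : Eis × Eis) :
    chi ((s : ℂ) * D + (t : ℂ) * D') y = s * chi D y + t * chi D' y := by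
  simp only [chi]
  rw [show ((s : ℂ) * D + (t : ℂ) * D') * (Eis.toC y.1 + beta * Eis.toC y.2) =
    (s : ℂ) * (D * (Eis.toC y.1 + beta * Eis.toC y.2)) +
    (t : ℂ) * (D' * (Eis.toC y.1 + beta * Eis.toC y.2)) by ring]
  rw [Complex.add_re, Complex.re_ofReal_mul, Complex.re_ofReal_mul]

/-- the integers `P`, `Q` with `6 chi z y = 3 P + √6 Q` -/
def fP (z : Eis) (y : Eis × Eis) : ℤ :=
  2 * (z * (y.1 + ⟨-2, -1⟩ * y.2)).a - (z * (y.1 + ⟨-2, -1⟩ * y.2)).b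

@[inherit_doc fP] def fQ (z : Eis) (y : Eis × Eis) : ℤ :=
  2 * (z * (⟨-1, 1⟩ * y.2)).a - (z * (⟨-1, 1⟩ * y.2)).b

theorem chi_eq (z : Eis) (y : Eis × Eis) :
    6 * chi (Eis.toC z) y = 3 * (fP z y : ℝ) + Real.sqrt 6 * (fQ z y : ℝ) := by
  have e1 : Eis.toC z * (Eis.toC y.1 + beta * Eis.toC y.2) =
      Eis.toC (z * (y.1 + ⟨-2, -1⟩ * y.2)) +
      ((Real.sqrt 6 / 3 : ℝ) : ℂ) * Eis.toC (z * (⟨-1, 1⟩ * y.2)) := by
    simp only [beta, toC_mul, toC_add]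
    ring
  rw [chi, e1, Complex.add_re, Complex.re_ofReal_mul, toC_re, toC_re]
  simp only [fP, fQ]
  push_cast
  ring

/-- the test `10⁴ (3 P + √6 Q) ≥ 5000` with rational bounds for `√6` -/
def lb (z : Eis) (y : Eis × Eis) : Bool :=
  decide (5000 ≤ 30000 * fP z y + 24494 * fQ z y) &&
    decide (5000 ≤ 30000 * fP z y + 24495 * fQ z y)

theorem sqrt6_bounds : (24494 / 10000 : ℝ) ≤ Real.sqrt 6 ∧ Real.sqrt 6 ≤ 24495 / 10000 := by
  constructor
  · apply Real.le_sqrt_of_sq_le; norm_num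
  · rw [Real.sqrt_le_left (by norm_num)]; norm_num

theorem lb_sound (z : Eis) (y : Eis × Eis) (h : lb z y = true) :
    1 / 12 ≤ chi (Eis.toC z) y := by
  simp only [lb, Bool.and_eq_true, decide_eq_true_eq] at h
  obtain ⟨h1, h2⟩ := h
  have h1' : (5000 : ℝ) ≤ 30000 * (fP z y : ℝ) + 24494 * (fQ z y : ℝ) := by exact_mod_cast h1
  have h2' : (5000 : ℝ) ≤ 30000 * (fP z y : ℝ) + 24495 * (fQ z y : ℝ) := by exact_mod_cast h2
  have h3 := chi_eq z y
  obtain ⟨hl, hu⟩ := sqrt6_bounds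
  rcases le_total 0 (fQ z y : ℝ) with hq | hq
  · nlinarith [mul_le_mul_of_nonneg_right hl hq]
  · nlinarith [mul_le_mul_of_nonpos_right hu hq]

end Pool.Agent.H86.DM
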