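import Pool.Agent.H86.DM.KpDef
import Pool.Agent.H13.DM.BNS.Graph

/-!
MP_9d29f5_al, project DM, block D (helper86): soundness of the certificate.
-/
set_option autoImplicit false

namespace Pool.Agent.H86.DM

open Pool.Agent.H13.DM

/-! ### the generating set of the translations -/

theorem grp_a {G : Type*} [Group G] (a b : G) : (a⁻¹ * b)⁻¹ = b⁻¹ * a := by
  rw [mul_inv_rev, inv_inv]

theorem grp_b {G : Type*} [Group G] (a b c : G) : a⁻¹ * b * (b⁻¹ * c) = a⁻¹ * c := by
  group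

theorem grp_c {G : Type*} [Group G] (a g c : G) (n m : ℕ) :
    (a ^ n)⁻¹ * c * a ^ m = (g * a ^ n)⁻¹ * (g * c * a ^ m) := by
  group

theorem cor_val (A : Kg →* Aff) (hA : IsAff A) (g : Kg) :
    (cor A hA g : Kg) = g * (xk 3) ^ ((A g).n : ℕ) := rfl


theorem XK_mem (A : Kg →* Aff) (hA : IsAff A) (g c : Kg) (hc : c ∈ Sg) (x : Kp A)
    (hx : x = (cor A hA g)⁻¹ * cor A hA (g * c)) : x ∈ XK A hA := ⟨g, c, hc, hx⟩

theorem XK_inv (A : Kg →* Aff) (hA : IsAff A) : ∀ x ∈ XK A hA, x⁻¹ ∈ XK A hA := by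
  rintro x ⟨g, c, hc, hx⟩
  refine XK_mem A hA (g * c) c⁻¹ (Sg_inv hc) _ ?_
  rw [mul_inv_cancel_right g c, hx]
  exact grp_a _ _

theorem finite_aux {G H : Type*} [Group G] {S : Set G} (hS : S.Finite) (X : Set H) (ι : H → G)
    (hι : Function.Injective ι) (a : G) (n : G → Fin 6) (m : Fin 6 → G → ℕ)
    (hX : ∀ x ∈ X, ∃ g c, c ∈ S ∧ ι x = (g * a ^ (n g : ℕ))⁻¹ * (g * c * a ^ (m (n g) c))) :
    X.Finite := by
  let f : Fin 6 × G → G := fun p => (a ^ (p.1 : ℕ))⁻¹ * p.2 * a ^ (m p.1 p.2)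
  have hfin : (f '' (Set.univ ×ˢ S)).Finite := (Set.finite_univ.prod hS).image f
  refine Set.Finite.of_finite_image (f := ι) (hfin.subset ?_) hι.injOn
  rintro _ ⟨x, hx, rfl⟩
  obtain ⟨g, c, hc, h⟩ := hX x hx
  refine ⟨(n g, c), ⟨trivial, hc⟩, ?_⟩
  rw [h]
  exact grp_c a g c _ _

theorem An_mul (A : Kg →* Aff) (g c : Kg) : (A (g * c)).n = (A g).n + (A c).n := by
  rw [map_mul, Aff.mul_n]

theorem XK_finite (A : Kg →* Aff) (hA : IsAff A) : (XK A hA).Finite := by
  refine finite_aux Sg_finite (XK A hA) Subtype.val Subtype.val_injective (xk 3)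
    (fun g => (A g).n) (fun k c => ((k + (A c).n : Fin 6) : ℕ)) ?_
  rintro x ⟨g, c, hc, hx⟩
  refine ⟨g, c, hc, ?_⟩
  have h2 : (x : Kg) = (cor A hA g : Kg)⁻¹ * (cor A hA (g * c) : Kg) := by
    rw [hx, Subgroup.coe_mul, Subgroup.coe_inv]
  rw [h2, cor_val, cor_val, An_mul]

theorem cor_of_mem (A : Kg →* Aff) (hA : IsAff A) (k : Kp A) : cor A hA (k : Kg) = k := by
  apply Subtype.ext
  have h : (A (k : Kg)).n = 0 := k.2
  rw [cor_val, h]
  simp

theorem closure_aux {G H : Type*} [Group G] [Group H] {S : Set G}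
    (hS : Subgroup.closure S = ⊤) (f : G → H) (ι : H → G) (X : Set H)
    (hX : ∀ a c y, c ∈ S → y = a * c → (f a)⁻¹ * f y ∈ X) (h1 : ∀ k, f (ι k) = k)
    (h0 : f 1 = 1) :
    Subgroup.closure X = ⊤ := by
  have key : ∀ g : G, ∀ a : G, (f a)⁻¹ * f (a * g) ∈ Subgroup.closure X := by
    intro g
    have hg : g ∈ Subgroup.closure S := by rw [hS]; trivial
    induction hg using Subgroup.closure_induction with
    | mem c hc => exact fun a => Subgroup.subset_closure (hX a c _ hc rfl)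
    | one =>
      intro a
      rw [mul_one, inv_mul_cancel]
      exact Subgroup.one_mem _
    | mul x y _ _ hx hy =>
      intro a
      have h := Subgroup.mul_mem _ (hx a) (hy (a * x))
      rw [grp_b, mul_assoc a x y] at h
      exact h
    | inv x _ hx =>
      intro a
      have h := Subgroup.inv_mem _ (hx (a * x⁻¹))
      rw [inv_mul_cancel_right, grp_a] at h
      exact h
  rw [eq_top_iff]
  intro k _
  have h := key (ι k) 1
  rw [one_mul, h0, inv_one, one_mul, h1] at h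
  exact h

theorem cor_one (A : Kg →* Aff) (hA : IsAff A) : cor A hA 1 = 1 := by
  have h := cor_of_mem A hA 1
  rwa [Subgroup.coe_one] at h

theorem XK_mem' (A : Kg →* Aff) (hA : IsAff A) (g c y : Kg) (hc : c ∈ Sg) (hy : y = g * c) :
    (cor A hA g)⁻¹ * cor A hA y ∈ XK A hA := by
  subst hy
  exact ⟨g, c, hc, rfl⟩

theorem XK_closure (A : Kg →* Aff) (hA : IsAff A) : Subgroup.closure (XK A hA) = ⊤ :=
  closure_aux Sg_closure (cor A hA) (fun k => (k : Kg)) (XK A hA)
    (fun a c y hc hy => XK_mem' A hA a c y hc hy) (cor_of_mem A hA) (cor_one A hA)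

/-! ### the graph -/

/-- the edges -/
def EE (v w : Kg × Fin 4) : Prop :=
  (v.1 = w.1 ∧ (w.2 = v.2 + 1 ∨ v.2 = w.2 + 1)) ∨
    (v.2 = w.2 ∧ ((w.1 = v.1 * xk v.2 ∨ v.1 = w.1 * xk v.2) ∨ ∃ u, w.1 = v.1 * zk u))

theorem EE_symm (v w : Kg × Fin 4) (h : EE v w) : EE w v := by
  rcases h with ⟨h1, h2⟩ | ⟨h1, h2 | ⟨u, h2⟩⟩
  · exact Or.inl ⟨h1.symm, h2.symm⟩
  · refine Or.inr ⟨h1.symm, Or.inl ?_⟩
    rw [← h1]
    exact h2.symm
  · refine Or.inr ⟨h1.symm, Or.inr ⟨-u, ?_⟩⟩
    rw [h2, ← zk_inv, mul_inv_cancel_right]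

theorem EE_x (g : Kg) (i : Fin 4) : EE (g, i) (g * xk i, i) := Or.inr ⟨rfl, Or.inl (Or.inl rfl)⟩

theorem EE_z (g : Kg) (i : Fin 4) (u : Fin 6) : EE (g, i) (g * zk u, i) :=
  Or.inr ⟨rfl, Or.inr ⟨u, rfl⟩⟩

theorem fin4_a : ∀ i d : Fin 4, i + d = i ∨ i + d = i + 1 ∨ i + d = i + 1 + 1 ∨
    i + d = i + 1 + 1 + 1 := by decide

theorem fin4_b : ∀ j : Fin 4, j = j + 3 + 1 := by decide

theorem RT_symm {v w : Kg × Fin 4} (h : Relation.ReflTransGen EE v w) :
    Relation.ReflTransGen EE w v := by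
  induction h with
  | refl => exact .refl
  | tail _ h1 ih => exact (Relation.ReflTransGen.single (EE_symm _ _ h1)).trans ih

theorem EE_conn (v w : Kg × Fin 4) : Relation.ReflTransGen EE v w := by
  have h1 : ∀ (g : Kg) (i : Fin 4), Relation.ReflTransGen EE (g, i) (g, i + 1) :=
    fun g i => Relation.ReflTransGen.single (Or.inl ⟨rfl, Or.inl rfl⟩)
  have h2 : ∀ (g : Kg) (i d : Fin 4), Relation.ReflTransGen EE (g, i) (g, i + d) := by
    intro g i d
    have e2 : Relation.ReflTransGen EE (g, i) (g, i + 1 + 1) := (h1 g i).trans (h1 g (i + 1))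
    have e3 : Relation.ReflTransGen EE (g, i) (g, i + 1 + 1 + 1) := e2.trans (h1 g (i + 1 + 1))
    rcases fin4_a i d with hd | hd | hd | hd <;> rw [hd]
    · exact h1 g i
    · exact e2
    · exact e3
  have h2' : ∀ (g : Kg) (i j : Fin 4), Relation.ReflTransGen EE (g, i) (g, j) := by
    intro g i j
    have e2 := h2 g i (j - i)
    rwa [add_sub_cancel] at e2
  have h3 : ∀ (k g : Kg) (i : Fin 4), Relation.ReflTransGen EE (g, i) (g * k, i) := by
    intro k
    have hk : k ∈ Subgroup.closure Sg := by rw [Sg_closure]; trivial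
    induction hk using Subgroup.closure_induction with
    | mem c hc =>
      intro g i
      rcases hc with ⟨j, hj | hj⟩ | ⟨u, hu⟩
      · rw [hj]
        exact ((h2' g i j).tail (EE_x g j)).trans (h2' _ j i)
      · rw [hj]
        have := EE_symm _ _ (EE_x (g * (xk j)⁻¹) j)
        rw [inv_mul_cancel_right] at this
        exact ((h2' g i j).tail this).trans (h2' _ j i)
      · rw [hu]
        exact Relation.ReflTransGen.single (EE_z g i u)
    | one => intro g i; rw [mul_one]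
    | mul x y _ _ hx hy =>
      intro g i
      rw [← mul_assoc]
      exact (hx g i).trans (hy (g * x) i)
    | inv x _ hx =>
      intro g i
      have := RT_symm (hx (g * x⁻¹) i)
      rwa [inv_mul_cancel_right] at this
  obtain ⟨g, i⟩ := v
  obtain ⟨k, j⟩ := w
  have e1 := h3 (g⁻¹ * k) g i
  rw [mul_inv_cancel_left] at e1
  exact e1.trans (h2' k i j)

theorem xk_pow_m (i : Fin 4) : ∀ e < ordr i, ((xk i) ^ e).1.m = xT i e := by
  intro e
  induction e with
  | zero =>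
    intro _
    rw [pow_zero, xT_zero]
    rfl
  | succ e ih =>
    intro he
    rw [pow_succ, xT_succ i e (by omega)]
    rw [← ih (by omega)]
    rfl

theorem A_xk_pow (A : Kg →* Aff) (hA : IsAff A) (i : Fin 4) :
    ∀ e < ordr i, A ((xk i) ^ e) = aT i e := by
  intro e
  induction e with
  | zero =>
    intro _
    rw [pow_zero, aT_zero, map_one]
  | succ e ih =>
    intro he
    rw [pow_succ, aT_succ i e (by omega), map_mul, ih (by omega), hA.x]

theorem A_xk_pow_app (A : Kg →* Aff) (hA : IsAff A) (i : Fin 4) (e : ℕ) :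
    (A ((xk i) ^ e)).app (pt i) = pt i := by
  induction e with
  | zero =>
    rw [pow_zero, map_one]
    simp only [Aff.app, Aff.one_c1, Aff.one_c2, Aff.one_n, unit_zero, one_mul, zero_add]
  | succ e ih => rw [pow_succ, map_mul, Aff.app_mul, hA.x, ax_app, ih]

/-! ### paths -/

section path

variable (A : Kg →* Aff) (hA : IsAff A) (S : Set (Kg × Fin 4))
  (hS1 : ∀ (a : Kg) (j : Fin 4) (e : ℕ), (a, j) ∈ S → (a * (xk j) ^ e, j) ∈ S)
  (hS2 : ∀ (a : Kg) (j : Fin 4) (u : Fin 6), (a, j) ∈ S → (a * zk u, j) ∈ S)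

include hS1 in
theorem coset_path (a : Kg) (j : Fin 4) (e : ℕ) (h : (a, j) ∈ S) :
    JV EE S (a, j) (a * (xk j) ^ e, j) := by
  induction e with
  | zero => rw [pow_zero, mul_one]; exact JV.refl h
  | succ e ih =>
    refine ih.trans ⟨ih.right_mem, Relation.ReflTransGen.single ⟨?_, hS1 a j (e + 1) h⟩⟩
    rw [pow_succ, ← mul_assoc]
    exact EE_x _ _

include hS2 in
theorem scalar_path (a : Kg) (j : Fin 4) (u : Fin 6) (h : (a, j) ∈ S) :
    JV EE S (a, j) (a * zk u, j) :=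
  ⟨h, Relation.ReflTransGen.single ⟨EE_z _ _ u, hS2 a j u h⟩⟩

include hA hS1 in
theorem run_sound (g : Kg) (ok : Aff → Fin 4 → Bool)
    (hok : ∀ (u : Kg) (j : Fin 4), ok (A u) j = true → (g * u, j) ∈ S) :
    ∀ (l : List (ℕ × Fin 4)) (u : Kg) (j : Fin 4) (r : M3 × Aff × Fin 4), (g * u, j) ∈ S →
      run ok l u.1.m (A u) j = some r →
      ∃ u' : Kg, u'.1.m = r.1 ∧ JV EE S (g * u, j) (g * u', r.2.2) := by
  intro l
  induction l with
  | nil =>
    intro u j r hu hr
    rw [run, Option.some.injEq] at hr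
    subst hr
    exact ⟨u, rfl, JV.refl hu⟩
  | cons t l ih =>
    obtain ⟨e, s⟩ := t
    intro u j r hu hr
    rw [run] at hr
    split_ifs at hr with hc
    simp only [Bool.and_eq_true, Bool.or_eq_true, decide_eq_true_eq, beq_iff_eq] at hc
    obtain ⟨⟨he, hk⟩, hs⟩ := hc
    have e1 : (u * (xk j) ^ e).1.m = u.1.m * xT j e := by
      rw [← xk_pow_m j e he]; rfl
    have e2 : A (u * (xk j) ^ e) = A u * aT j e := by
      rw [map_mul, A_xk_pow A hA j e he]
    rw [← e1, ← e2] at hr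
    rw [← e2] at hk
    have h1 : (g * (u * (xk j) ^ e), j + s) ∈ S := hok _ _ hk
    obtain ⟨u', hu', hp⟩ := ih (u * (xk j) ^ e) (j + s) r h1 hr
    refine ⟨u', hu', ?_⟩
    have h2 := coset_path S hS1 (g * u) j e hu
    rw [mul_assoc] at h2
    refine h2.trans (JV.trans ⟨h2.right_mem, Relation.ReflTransGen.single ⟨?_, h1⟩⟩ hp)
    refine Or.inl ⟨rfl, ?_⟩
    rcases hs with rfl | rfl
    · exact Or.inl rfl
    · exact Or.inr (fin4_b j)

include hA hS1 hS2 in
theorem checkPath_sound (g : Kg) (ok : Aff → Fin 4 → Bool)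
    (hok : ∀ (u : Kg) (j : Fin 4), ok (A u) j = true → (g * u, j) ∈ S)
    (p : List (ℕ × Fin 4) × ℕ) (t : ℕ × Fin 4) (i : Fin 4) (t' : ℕ × Fin 4) (k : Fin 4) (W : Kg)
    (ht : t.1 < ordr i) (ht' : t'.1 < ordr k) (h0 : (g * (xk i) ^ t.1, i + t.2) ∈ S)
    (h : checkPath ok p t i t' k W.1.m = true) :
    JV EE S (g * (xk i) ^ t.1, i + t.2) (g * (W * (xk k) ^ t'.1), k + t'.2) := by
  rw [checkPath, ← xk_pow_m i t.1 ht, ← A_xk_pow A hA i t.1 ht] at h
  cases hr : run ok p.1 ((xk i) ^ t.1).1.m (A ((xk i) ^ t.1)) (i + t.2) with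
  | none => rw [hr] at h; exact absurd h (by simp)
  | some r =>
    obtain ⟨m, x, j⟩ := r
    rw [hr] at h
    simp only [Bool.and_eq_true, decide_eq_true_eq] at h
    obtain ⟨⟨h1, h2⟩, h3⟩ := h
    obtain ⟨u', hu', hp⟩ := run_sound A hA S hS1 g ok hok p.1 _ _ _ h0 hr
    simp only at hu' hp
    have e1 : (u' * (xk j) ^ p.2).1.m = m * xT j p.2 := by
      rw [← xk_pow_m j p.2 h1, ← hu']; rfl
    have e2 : (W * (xk k) ^ t'.1).1.m = W.1.m * xT k t'.1 := by
      rw [← xk_pow_m k t'.1 ht']; rfl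
    rw [← e1, ← e2] at h3
    obtain ⟨u, hu⟩ := sameU_sound h3
    have hq := coset_path S hS1 (g * u') j p.2 hp.right_mem
    rw [mul_assoc, hu] at hq
    have hz := scalar_path S hS2 _ j (-u) hq.right_mem
    have e3 : g * (W * (xk k) ^ t'.1 * zk u) * zk (-u) = g * (W * (xk k) ^ t'.1) := by
      rw [← zk_inv]; group
    rw [e3] at hz
    rw [h2] at hp hq hz
    exact (hp.trans hq).trans hz

end path

theorem tv_eq_app (A : Kg →* Aff) (g : Kg) : tv A g = (A g).app (0, 0) := by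
  ext1
  · change (A g).c1 = (A g).c1 + Eis.unit (A g).n * 0
    rw [mul_zero, add_zero]
  · change (A g).c2 = (A g).c2 + Eis.unit (A g).n * 0
    rw [mul_zero, add_zero]

/-! ### the certificate -/

theorem unit_toC_mul (a b : Fin 6) :
    Eis.toC (Eis.unit (a + b)) = Eis.toC (Eis.unit a) * Eis.toC (Eis.unit b) := by
  rw [unit_add, toC_mul]

theorem up_sound {ar : Fin 2} {R : Fin 6} {x : Aff} {j k : Fin 4} (h : up ar R x j k = true)
    {s t : ℝ} (hs : 0 ≤ s) (ht : 0 ≤ t) :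
    (s + t) / 12 ≤ chi (Eis.toC (Eis.unit R) * ((s : ℂ) * Eis.toC (dE ar false) +
      (t : ℂ) * Eis.toC (dE ar true))) (x.app (pt j) - pt k) := by
  simp only [up, Bool.and_eq_true] at h
  have h1 := lb_sound _ _ h.1
  have h2 := lb_sound _ _ h.2
  have e : Eis.toC (Eis.unit R) * ((s : ℂ) * Eis.toC (dE ar false) +
      (t : ℂ) * Eis.toC (dE ar true)) = (s : ℂ) * Eis.toC (Eis.unit R * dE ar false) +
      (t : ℂ) * Eis.toC (Eis.unit R * dE ar true) := by
    rw [toC_mul, toC_mul]; ring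
  rw [e, chi_comb]
  have h3 := mul_le_mul_of_nonneg_left h1 hs
  have h4 := mul_le_mul_of_nonneg_left h2 ht
  linarith

theorem cert_entry (ar : Fin 2) (R : Fin 6) (i : Fin 4) :
    ((tauD ar R i).1 < ordr i) ∧ ((tauD ar R i).2 = 1 ∨ (tauD ar R i).2 = 3) ∧
    up ar R (aT i (tauD ar R i).1) (i + (tauD ar R i).2) i = true ∧
    checkPath (fun x j => up ar R x j i || up ar R x j (i + 1)) (pathT2 ar R i) (tauD ar R i) i
      (tauD ar R (i + 1)) (i + 1) 1 = true ∧
    checkPath (fun x j => up ar R x j i) (pathT1 ar R i) (tauD ar R i) i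
      (tauD ar (R + (ax i).n) i) i (xM i) = true := by
  have h := certOK_eq
  rw [certOK, List.all_eq_true] at h
  have h1 := h ar (List.mem_finRange ar)
  rw [List.all_eq_true] at h1
  have h2 := h1 R (List.mem_finRange R)
  rw [List.all_eq_true] at h2
  have h3 := h2 i (List.mem_finRange i)
  simp only [Bool.and_eq_true, Bool.or_eq_true, decide_eq_true_eq, beq_iff_eq] at h3
  obtain ⟨⟨⟨⟨h4, h5⟩, h6⟩, h7⟩, h8⟩ := h3
  exact ⟨h4, h5, h6, h7, h8⟩

/-- the certificate: superlevel sets are connected for all directions in the two arcs, rotated by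
the units -/
theorem conn_arc (A : Kg →* Aff) (hA : IsAff A) (ar : Fin 2) (R : Fin 6) (s t : ℝ) (hs : 0 ≤ s)
    (ht : 0 ≤ t) (hst : 0 < s + t) :
    Conn (XK A hA) (fun g => chi (Eis.toC (Eis.unit R) * ((s : ℂ) * Eis.toC (dE ar false) +
      (t : ℂ) * Eis.toC (dE ar true))) (tv A g)) := by
  set D0 : ℂ := (s : ℂ) * Eis.toC (dE ar false) + (t : ℂ) * Eis.toC (dE ar true) with hD0
  set D : ℂ := Eis.toC (Eis.unit R) * D0 with hD
  let h : Kg × Fin 4 → ℝ := fun v => chi D ((A v.1).app (pt v.2))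
  let ρ : Kg → Fin 6 := fun g => R + (A g).n
  let tau : Kg × Fin 4 → Kg × Fin 4 := fun v =>
    (v.1 * (xk v.2) ^ (tauD ar (ρ v.1) v.2).1, v.2 + (tauD ar (ρ v.1) v.2).2)
  set ε : ℝ := (s + t) / 12 with hε
  have hεp : 0 < ε := by rw [hε]; linarith
  -- local directions
  have hloc : ∀ (g u : Kg) (j k : Fin 4), h (g * u, j) - h (g, k) =
      chi (Eis.toC (Eis.unit (ρ g)) * D0) ((A u).app (pt j) - pt k) := by
    intro g u j k
    change chi D ((A (g * u)).app (pt j)) - chi D ((A g).app (pt k)) = _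
    rw [map_mul, Aff.app_mul, chi_app, unit_toC_mul, hD]
    congr 1
    ring
  have hup : ∀ (g u : Kg) (j k : Fin 4), up ar (ρ g) (A u) j k = true →
      h (g, k) + ε ≤ h (g * u, j) := by
    intro g u j k hu
    have h1 := up_sound hu hs ht
    have h2 := hloc g u j k
    rw [hD0] at h2
    linarith
  have hcos : ∀ (a : Kg) (j : Fin 4) (e : ℕ), h (a * (xk j) ^ e, j) = h (a, j) := by
    intro a j e
    change chi D ((A (a * (xk j) ^ e)).app (pt j)) = chi D ((A a).app (pt j))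
    rw [map_mul, Aff.app_mul, A_xk_pow_app A hA]
  have hsc : ∀ (a : Kg) (j : Fin 4) (u : Fin 6), h (a * zk u, j) = h (a, j) := by
    intro a j u
    change chi D ((A (a * zk u)).app (pt j)) = chi D ((A a).app (pt j))
    rw [map_mul, hA.z, mul_one]
  have hS1 : ∀ c : ℝ, ∀ (a : Kg) (j : Fin 4) (e : ℕ), (a, j) ∈ {u | c ≤ h u} →
      (a * (xk j) ^ e, j) ∈ {u | c ≤ h u} := by
    intro c a j e ha
    have ha' : c ≤ h (a, j) := ha
    change c ≤ h (a * (xk j) ^ e, j)
    rwa [hcos]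
  have hS2 : ∀ c : ℝ, ∀ (a : Kg) (j : Fin 4) (u : Fin 6), (a, j) ∈ {u | c ≤ h u} →
      (a * zk u, j) ∈ {u | c ≤ h u} := by
    intro c a j e ha
    have ha' : c ≤ h (a, j) := ha
    change c ≤ h (a * zk e, j)
    rwa [hsc]
  -- ascending
  have h0 : ∀ v, h v + ε ≤ h (tau v) := by
    rintro ⟨g, i⟩
    obtain ⟨c1, c2, c3, c4, c5⟩ := cert_entry ar (ρ g) i
    refine hup g ((xk i) ^ (tauD ar (ρ g) i).1) _ i ?_
    rw [A_xk_pow A hA i _ c1]
    exact c3
  -- the path from v to tau v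
  have h1 : ∀ v, JV EE {u | h v - 0 ≤ h u} v (tau v) := by
    rintro ⟨g, i⟩
    obtain ⟨c1, c2, c3, c4, c5⟩ := cert_entry ar (ρ g) i
    have hv : (g, i) ∈ {u | h (g, i) - 0 ≤ h u} := by
      change h (g, i) - 0 ≤ h (g, i)
      linarith
    have hp := coset_path {u | h (g, i) - 0 ≤ h u} (hS1 _) g i (tauD ar (ρ g) i).1 hv
    have h0' : h (g, i) + ε ≤ h (g * (xk i) ^ (tauD ar (ρ g) i).1, i + (tauD ar (ρ g) i).2) :=
      h0 (g, i)
    refine hp.trans ⟨hp.right_mem, Relation.ReflTransGen.single ⟨Or.inl ⟨rfl, ?_⟩, ?_⟩⟩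
    · rcases c2 with c2 | c2
      · left
        change i + (tauD ar (ρ g) i).2 = i + 1
        rw [c2]
      · right
        change i = i + (tauD ar (ρ g) i).2 + 1
        rw [c2]
        exact fin4_b i
    · change h (g, i) - 0 ≤ h (g * (xk i) ^ (tauD ar (ρ g) i).1, i + (tauD ar (ρ g) i).2)
      linarith
  -- the lifts
  have hT2 : ∀ (g : Kg) (i : Fin 4), JV EE {u | min (h (g, i)) (h (g, i + 1)) + ε ≤ h u}
      (tau (g, i)) (tau (g, i + 1)) := by
    intro g i
    obtain ⟨c1, c2, c3, c4, c5⟩ := cert_entry ar (ρ g) i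
    obtain ⟨d1, -, -, -, -⟩ := cert_entry ar (ρ g) (i + 1)
    have hst0 : (g * (xk i) ^ (tauD ar (ρ g) i).1, i + (tauD ar (ρ g) i).2) ∈
        {u | min (h (g, i)) (h (g, i + 1)) + ε ≤ h u} := by
      have h0' : h (g, i) + ε ≤ h (g * (xk i) ^ (tauD ar (ρ g) i).1, i + (tauD ar (ρ g) i).2) :=
        h0 (g, i)
      have hm : min (h (g, i)) (h (g, i + 1)) ≤ h (g, i) := min_le_left _ _
      change min (h (g, i)) (h (g, i + 1)) + ε ≤ _
      linarith
    have hp := checkPath_sound A hA {u | min (h (g, i)) (h (g, i + 1)) + ε ≤ h u} (hS1 _) (hS2 _) g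
      (fun x j => up ar (ρ g) x j i || up ar (ρ g) x j (i + 1)) (by
        intro u j hu
        simp only [Bool.or_eq_true] at hu
        change min (h (g, i)) (h (g, i + 1)) + ε ≤ h (g * u, j)
        rcases hu with hu | hu
        · have := hup g u j i hu
          have hm : min (h (g, i)) (h (g, i + 1)) ≤ h (g, i) := min_le_left _ _
          linarith
        · have := hup g u j (i + 1) hu
          have hm : min (h (g, i)) (h (g, i + 1)) ≤ h (g, i + 1) := min_le_right _ _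
          linarith)
      (pathT2 ar (ρ g) i) (tauD ar (ρ g) i) i (tauD ar (ρ g) (i + 1)) (i + 1) 1 c1 d1 hst0 c4
    rw [one_mul] at hp
    exact hp
  have hT1 : ∀ (g : Kg) (i : Fin 4), JV EE {u | min (h (g, i)) (h (g * xk i, i)) + ε ≤ h u}
      (tau (g, i)) (tau (g * xk i, i)) := by
    intro g i
    obtain ⟨c1, c2, c3, c4, c5⟩ := cert_entry ar (ρ g) i
    obtain ⟨d1, -, -, -, -⟩ := cert_entry ar (ρ g + (ax i).n) i
    have hm : min (h (g, i)) (h (g * xk i, i)) ≤ h (g, i) := min_le_left _ _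
    have hst0 : (g * (xk i) ^ (tauD ar (ρ g) i).1, i + (tauD ar (ρ g) i).2) ∈
        {u | min (h (g, i)) (h (g * xk i, i)) + ε ≤ h u} := by
      have h0' : h (g, i) + ε ≤ h (g * (xk i) ^ (tauD ar (ρ g) i).1, i + (tauD ar (ρ g) i).2) :=
        h0 (g, i)
      change min (h (g, i)) (h (g * xk i, i)) + ε ≤ _
      linarith
    have hp := checkPath_sound A hA {u | min (h (g, i)) (h (g * xk i, i)) + ε ≤ h u} (hS1 _)
      (hS2 _) g (fun x j => up ar (ρ g) x j i) (by
        intro u j hu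
        have := hup g u j i hu
        change min (h (g, i)) (h (g * xk i, i)) + ε ≤ h (g * u, j)
        linarith)
      (pathT1 ar (ρ g) i) (tauD ar (ρ g) i) i (tauD ar (ρ g + (ax i).n) i) i (xk i) c1 d1 hst0 c5
    have e1 : ρ (g * xk i) = ρ g + (ax i).n := by
      change R + (A (g * xk i)).n = R + (A g).n + (ax i).n
      rw [map_mul, Aff.mul_n, hA.x, add_assoc]
    have e2 : tau (g * xk i, i) = (g * (xk i * (xk i) ^ (tauD ar (ρ g + (ax i).n) i).1),
        i + (tauD ar (ρ g + (ax i).n) i).2) := by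
      change (g * xk i * (xk i) ^ (tauD ar (ρ (g * xk i)) i).1,
        i + (tauD ar (ρ (g * xk i)) i).2) = _
      rw [e1, mul_assoc]
    rw [e2]
    exact hp
  have hTz : ∀ (g : Kg) (i : Fin 4) (u : Fin 6),
      JV EE {w | min (h (g, i)) (h (g * zk u, i)) + ε ≤ h w} (tau (g, i)) (tau (g * zk u, i)) := by
    intro g i u
    have hm : min (h (g, i)) (h (g * zk u, i)) ≤ h (g, i) := min_le_left _ _
    have h0' := h0 (g, i)
    have e1 : ρ (g * zk u) = ρ g := by
      change R + (A (g * zk u)).n = R + (A g).n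
      rw [map_mul, hA.z, mul_one]
    have e2 : tau (g * zk u, i) = (g * (xk i) ^ (tauD ar (ρ g) i).1 * zk u,
        i + (tauD ar (ρ g) i).2) := by
      change (g * zk u * (xk i) ^ (tauD ar (ρ (g * zk u)) i).1,
        i + (tauD ar (ρ (g * zk u)) i).2) = _
      rw [e1, mul_assoc, zk_comm, ← mul_assoc]
    rw [e2]
    refine scalar_path _ (hS2 _) _ _ u ?_
    change min (h (g, i)) (h (g * zk u, i)) + ε ≤ h (tau (g, i))
    linarith
  have h2 : ∀ v w, EE v w → JV EE {u | min (h v) (h w) + ε ≤ h u} (tau v) (tau w) := by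
    rintro ⟨g, i⟩ ⟨g', i'⟩ (⟨hg, hi⟩ | ⟨hi, hc⟩)
    · simp only at hg hi
      subst hg
      rcases hi with rfl | rfl
      · exact hT2 g i
      · rw [min_comm]
        exact (hT2 g i').symm EE_symm
    · simp only at hi hc
      subst hi
      rcases hc with (hc | hc) | ⟨u, hc⟩
      · rw [hc]; exact hT1 g i
      · rw [hc, min_comm]; exact (hT1 g' i).symm EE_symm
      · rw [hc]; exact hTz g i u
  -- the distance of the two height functions
  let bd : Fin 6 × Fin 4 → ℝ := fun p =>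
    |chi (Eis.toC (Eis.unit R) * D0 * Eis.toC (Eis.unit p.1))
      ((ax 3 ^ (p.1 : ℕ)).app (0, 0) - pt p.2)|
  have hbd : ∀ p, bd p ≤ ∑ q, bd q := fun p =>
    Finset.single_le_sum (f := bd) (fun q _ => abs_nonneg _) (Finset.mem_univ p)
  have hgoal := conn_of_graph (H := Kp A) (V := Kg × Fin 4) (X := XK A hA) (XK_inv A hA)
    (XK_closure A hA) (χ := fun g => chi D (tv A g))
    (by
      intro g g'
      change chi D (tv A ((g : Kg) * (g' : Kg))) = _
      rw [tv_mul A g.2, chi_add])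
    EE EE_symm h tau (fun v => cor A hA v.1) (fun k => ((k : Kg), 0)) 0 (∑ q, bd q) ε hεp
    (fun k => cor_of_mem A hA k)
    (by
      rintro ⟨g, i⟩
      refine le_trans (le_of_eq ?_) (hbd ((A g).n, i))
      change |chi D (tv A (cor A hA g : Kg)) - chi D ((A g).app (pt i))| =
        |chi (D * Eis.toC (Eis.unit (A g).n)) ((ax 3 ^ ((A g).n : ℕ)).app (0, 0) - pt i)|
      rw [cor_val, tv_eq_app, map_mul, map_pow, hA.x, Aff.app_mul, chi_app])
    (by
      rintro ⟨g, i⟩ ⟨g', i'⟩ (⟨hg, -⟩ | ⟨-, (hc | hc) | ⟨u, hc⟩⟩)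
      · right
        simp only at hg ⊢
        rw [hg]
      · left
        simp only at hc ⊢
        rw [hc]
        exact XK_mem' A hA g (xk i) _ (Or.inl ⟨i, Or.inl rfl⟩) rfl
      · left
        simp only at hc ⊢
        rw [hc]
        have := XK_inv A hA _ (XK_mem' A hA g' (xk i) _ (Or.inl ⟨i, Or.inl rfl⟩) rfl)
        rw [grp_a] at this
        exact this
      · left
        simp only at hc ⊢
        rw [hc]
        exact XK_mem' A hA g (zk u) _ (Or.inr ⟨u, rfl⟩) rfl)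
    EE_conn h0 h1 h2
  exact hgoal

end Pool.Agent.H86.DM
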