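import Pool.Agent.H86.DM.Aff

/-!
MP_9d29f5_al, project DM, block D (helper86): the finite certificate. Generated by a script.

Two arcs of directions `d0 → d1`: `5+4ω → 5+6ω`, `5+6ω → 6+9ω`; six rotations `R`; four types of
mirrors `i`. `tauD k R i = (a, s)`: the vertex `(x_i^a, i + s)`. A path is a list of pairs `(e, s)`:
from `(g, j)` to `(g x_j^e, j + s)`, with a last exponent.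
-/
set_option autoImplicit false

namespace Pool.Agent.H86.DM

open Pool.Agent.H13.DM

/-- the four generators `x_i` -/
def xM : Fin 4 → M3
  | 0 => ⟨⟨1, 0⟩, ⟨0, 0⟩, ⟨0, 0⟩, ⟨6, 6⟩, ⟨-1, -1⟩, ⟨0, 0⟩, ⟨-12, -6⟩, ⟨3, 0⟩, ⟨1, 0⟩⟩
  | 1 => ⟨⟨1, 0⟩, ⟨0, 0⟩, ⟨0, 0⟩, ⟨4, 2⟩, ⟨-1, -1⟩, ⟨0, 0⟩, ⟨-4, -2⟩, ⟨2, 1⟩, ⟨1, 0⟩⟩
  | 2 => ⟨⟨1, 1⟩, ⟨-1, 0⟩, ⟨-1, -1⟩, ⟨-2, 0⟩, ⟨-1, -2⟩, ⟨0, -2⟩, ⟨-1, -1⟩, ⟨0, -1⟩, ⟨2, 0⟩⟩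
  | 3 => ⟨⟨2, 0⟩, ⟨-1, 0⟩, ⟨-1, -1⟩, ⟨2, 2⟩, ⟨-1, -2⟩, ⟨0, -2⟩, ⟨-1, -1⟩, ⟨1, 1⟩, ⟨1, 1⟩⟩

/-- the powers of the generators -/
def xT : Fin 4 → ℕ → M3
  | 0, 0 => ⟨⟨1, 0⟩, ⟨0, 0⟩, ⟨0, 0⟩, ⟨0, 0⟩, ⟨1, 0⟩, ⟨0, 0⟩, ⟨0, 0⟩, ⟨0, 0⟩, ⟨1, 0⟩⟩
  | 0, 1 => ⟨⟨1, 0⟩, ⟨0, 0⟩, ⟨0, 0⟩, ⟨6, 6⟩, ⟨-1, -1⟩, ⟨0, 0⟩, ⟨-12, -6⟩, ⟨3, 0⟩, ⟨1, 0⟩⟩
  | 0, 2 => ⟨⟨1, 0⟩, ⟨0, 0⟩, ⟨0, 0⟩, ⟨6, 0⟩, ⟨0, 1⟩, ⟨0, 0⟩, ⟨-6, 6⟩, ⟨0, -3⟩, ⟨1, 0⟩⟩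
  | 1, 0 => ⟨⟨1, 0⟩, ⟨0, 0⟩, ⟨0, 0⟩, ⟨0, 0⟩, ⟨1, 0⟩, ⟨0, 0⟩, ⟨0, 0⟩, ⟨0, 0⟩, ⟨1, 0⟩⟩
  | 1, 1 => ⟨⟨1, 0⟩, ⟨0, 0⟩, ⟨0, 0⟩, ⟨4, 2⟩, ⟨-1, -1⟩, ⟨0, 0⟩, ⟨-4, -2⟩, ⟨2, 1⟩, ⟨1, 0⟩⟩
  | 1, 2 => ⟨⟨1, 0⟩, ⟨0, 0⟩, ⟨0, 0⟩, ⟨2, -2⟩, ⟨0, 1⟩, ⟨0, 0⟩, ⟨-2, 2⟩, ⟨1, -1⟩, ⟨1, 0⟩⟩
  | 2, 0 => ⟨⟨1, 0⟩, ⟨0, 0⟩, ⟨0, 0⟩, ⟨0, 0⟩, ⟨1, 0⟩, ⟨0, 0⟩, ⟨0, 0⟩, ⟨0, 0⟩, ⟨1, 0⟩⟩
  | 2, 1 => ⟨⟨1, 1⟩, ⟨-1, 0⟩, ⟨-1, -1⟩, ⟨-2, 0⟩, ⟨-1, -2⟩, ⟨0, -2⟩, ⟨-1, -1⟩, ⟨0, -1⟩, ⟨2, 0⟩⟩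
  | 2, 2 => ⟨⟨2, 2⟩, ⟨-1, 1⟩, ⟨-2, -1⟩, ⟨-2, 2⟩, ⟨-3, -2⟩, ⟨-2, -4⟩, ⟨-2, -1⟩, ⟨-1, -2⟩, ⟨2, -1⟩⟩
  | 2, 3 => ⟨⟨3, 2⟩, ⟨0, 2⟩, ⟨-2, 0⟩, ⟨0, 4⟩, ⟨-3, 0⟩, ⟨-4, -4⟩, ⟨-2, 0⟩, ⟨-2, -2⟩, ⟨1, -2⟩⟩
  | 2, 4 => ⟨⟨3, 1⟩, ⟨1, 2⟩, ⟨-1, 1⟩, ⟨2, 4⟩, ⟨-1, 2⟩, ⟨-4, -2⟩, ⟨-1, 1⟩, ⟨-2, -1⟩, ⟨0, -2⟩⟩
  | 2, 5 => ⟨⟨2, 0⟩, ⟨1, 1⟩, ⟨0, 1⟩, ⟨2, 2⟩, ⟨1, 2⟩, ⟨-2, 0⟩, ⟨0, 1⟩, ⟨-1, 0⟩, ⟨0, -1⟩⟩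
  | 3, 0 => ⟨⟨1, 0⟩, ⟨0, 0⟩, ⟨0, 0⟩, ⟨0, 0⟩, ⟨1, 0⟩, ⟨0, 0⟩, ⟨0, 0⟩, ⟨0, 0⟩, ⟨1, 0⟩⟩
  | 3, 1 => ⟨⟨2, 0⟩, ⟨-1, 0⟩, ⟨-1, -1⟩, ⟨2, 2⟩, ⟨-1, -2⟩, ⟨0, -2⟩, ⟨-1, -1⟩, ⟨1, 1⟩, ⟨1, 1⟩⟩
  | 3, 2 => ⟨⟨2, -1⟩, ⟨-1, 1⟩, ⟨-2, -1⟩, ⟨4, 2⟩, ⟨-3, -2⟩, ⟨-2, -4⟩, ⟨-2, -1⟩, ⟨2, 1⟩, ⟨2, 2⟩⟩
  | 3, 3 => ⟨⟨1, -2⟩, ⟨0, 2⟩, ⟨-2, 0⟩, ⟨4, 0⟩, ⟨-3, 0⟩, ⟨-4, -4⟩, ⟨-2, 0⟩, ⟨2, 0⟩, ⟨3, 2⟩⟩
  | 3, 4 => ⟨⟨0, -2⟩, ⟨1, 2⟩, ⟨-1, 1⟩, ⟨2, -2⟩, ⟨-1, 2⟩, ⟨-4, -2⟩, ⟨-1, 1⟩, ⟨1, -1⟩, ⟨3, 1⟩⟩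
  | 3, 5 => ⟨⟨0, -1⟩, ⟨1, 1⟩, ⟨0, 1⟩, ⟨0, -2⟩, ⟨1, 2⟩, ⟨-2, 0⟩, ⟨0, 1⟩, ⟨0, -1⟩, ⟨2, 0⟩⟩
  | _, _ => 1

/-- the powers of the affine maps -/
def aT : Fin 4 → ℕ → Aff
  | 0, 0 => ⟨0, ⟨0, 0⟩, ⟨0, 0⟩⟩
  | 0, 1 => ⟨2, ⟨2, 1⟩, ⟨0, 0⟩⟩
  | 0, 2 => ⟨4, ⟨1, 2⟩, ⟨0, 0⟩⟩
  | 1, 0 => ⟨0, ⟨0, 0⟩, ⟨0, 0⟩⟩
  | 1, 1 => ⟨2, ⟨0, 0⟩, ⟨-1, -2⟩⟩
  | 1, 2 => ⟨4, ⟨0, 0⟩, ⟨1, -1⟩⟩
  | 2, 0 => ⟨0, ⟨0, 0⟩, ⟨0, 0⟩⟩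
  | 2, 1 => ⟨3, ⟨0, 0⟩, ⟨0, 0⟩⟩
  | 2, 2 => ⟨0, ⟨0, 0⟩, ⟨0, 0⟩⟩
  | 2, 3 => ⟨3, ⟨0, 0⟩, ⟨0, 0⟩⟩
  | 2, 4 => ⟨0, ⟨0, 0⟩, ⟨0, 0⟩⟩
  | 2, 5 => ⟨3, ⟨0, 0⟩, ⟨0, 0⟩⟩
  | 3, 0 => ⟨0, ⟨0, 0⟩, ⟨0, 0⟩⟩
  | 3, 1 => ⟨5, ⟨-1, 1⟩, ⟨-1, 1⟩⟩
  | 3, 2 => ⟨4, ⟨0, 3⟩, ⟨0, 3⟩⟩
  | 3, 3 => ⟨3, ⟨2, 4⟩, ⟨2, 4⟩⟩
  | 3, 4 => ⟨2, ⟨3, 3⟩, ⟨3, 3⟩⟩
  | 3, 5 => ⟨1, ⟨2, 1⟩, ⟨2, 1⟩⟩
  | _, _ => 1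

/-- bound for the exponents -/
def ordr : Fin 4 → ℕ
  | 0 => 3 | 1 => 3 | 2 => 6 | 3 => 6

theorem xT_zero : ∀ i, xT i 0 = 1 := by decide +kernel
theorem xT_succ : ∀ i, ∀ a < ordr i - 1, xT i (a + 1) = xT i a * xM i := by decide +kernel
theorem aT_zero : ∀ i, aT i 0 = 1 := by decide +kernel
theorem aT_succ : ∀ i, ∀ a < ordr i - 1, aT i (a + 1) = aT i a * ax i := by decide +kernel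
theorem xM_isU : ∀ i, M3.IsU (xM i) := by decide +kernel

/-- the ends of the arcs -/
def dE : Fin 2 → Bool → Eis
  | 0, false => ⟨5, 4⟩ | 0, true => ⟨5, 6⟩ | 1, false => ⟨5, 6⟩ | 1, true => ⟨6, 9⟩

/-- the ascending neighbours -/
def tauD : Fin 2 → Fin 6 → Fin 4 → ℕ × Fin 4
  | 0, 0, 0 => (1, 1)
  | 0, 0, 1 => (0, 3)
  | 0, 0, 2 => (5, 3)
  | 0, 0, 3 => (2, 3)
  | 0, 1, 0 => (1, 1)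
  | 0, 1, 1 => (2, 1)
  | 0, 1, 2 => (5, 3)
  | 0, 1, 3 => (3, 3)
  | 0, 2, 0 => (0, 1)
  | 0, 2, 1 => (2, 3)
  | 0, 2, 2 => (0, 3)
  | 0, 2, 3 => (4, 3)
  | 0, 3, 0 => (0, 1)
  | 0, 3, 1 => (1, 1)
  | 0, 3, 2 => (0, 3)
  | 0, 3, 3 => (5, 3)
  | 0, 4, 0 => (2, 1)
  | 0, 4, 1 => (1, 3)
  | 0, 4, 2 => (0, 3)
  | 0, 4, 3 => (0, 3)
  | 0, 5, 0 => (2, 1)
  | 0, 5, 1 => (0, 1)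
  | 0, 5, 2 => (5, 3)
  | 0, 5, 3 => (1, 3)
  | 1, 0, 0 => (1, 1)
  | 1, 0, 1 => (0, 3)
  | 1, 0, 2 => (0, 1)
  | 1, 0, 3 => (3, 3)
  | 1, 1, 0 => (0, 3)
  | 1, 1, 1 => (2, 1)
  | 1, 1, 2 => (5, 3)
  | 1, 1, 3 => (4, 3)
  | 1, 2, 0 => (0, 1)
  | 1, 2, 1 => (2, 3)
  | 1, 2, 2 => (1, 1)
  | 1, 2, 3 => (5, 3)
  | 1, 3, 0 => (2, 3)
  | 1, 3, 1 => (1, 1)
  | 1, 3, 2 => (1, 1)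
  | 1, 3, 3 => (0, 3)
  | 1, 4, 0 => (2, 1)
  | 1, 4, 1 => (1, 3)
  | 1, 4, 2 => (0, 3)
  | 1, 4, 3 => (1, 3)
  | 1, 5, 0 => (1, 3)
  | 1, 5, 1 => (0, 1)
  | 1, 5, 2 => (0, 1)
  | 1, 5, 3 => (2, 3)

/-- the paths T1 -/
def pathT1 : Fin 2 → Fin 6 → Fin 4 → List (ℕ × Fin 4) × ℕ
  | 0, 0, 0 => ([], 0)
  | 0, 0, 1 => ([], 0)
  | 0, 0, 2 => ([(0, 3), (2, 3), (0, 3), (5, 3), (0, 3), (2, 1), (0, 1), (5, 3), (0, 3), (2, 1), (0, 1), (5, 3), (0, 3), (2, 1), (0, 1), (5, 3), (0, 3), (2, 3), (1, 1), (1, 1), (2, 3), (2, 1), (2, 3), (2, 1), (2, 3), (2, 1), (2, 3), (1, 3), (5, 3), (4, 1), (5, 3), (5, 3), (0, 3), (1, 1), (2, 3), (2, 1), (2, 3), (2, 3), (1, 1), (0, 1), (2, 3), (0, 3), (5, 3), (5, 1), (1, 1), (0, 1), (2, 3), (1, 1), (1, 3), (0,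 3), (1, 1), (0, 1), (2, 3), (1, 1), (1, 3), (0, 3), (1, 1), (0, 1), (2, 3), (1, 1)], 1)
  | 0, 0, 3 => ([], 0)
  | 0, 1, 0 => ([], 0)
  | 0, 1, 1 => ([], 0)
  | 0, 1, 2 => ([(1, 3), (2, 1), (1, 3), (1, 1), (1, 3), (1, 1), (1, 3), (1, 1), (2, 3), (2, 3), (0, 3), (1, 3), (1, 3), (0, 3), (1, 1), (0, 1), (1, 1), (1, 3), (2, 3), (0, 3), (1, 1), (0, 1), (1, 1), (1, 3), (2, 3), (0, 3), (1, 1), (2, 3), (5, 1), (0, 1), (2, 1), (5, 3), (2, 3), (0, 3), (5, 1), (0, 1), (1, 1), (5, 3), (2, 3), (1, 1), (0, 1), (5, 3), (2, 1), (5, 3), (2, 1), (5, 3), (2, 1), (5, 3)], 2)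
  | 0, 1, 3 => ([], 0)
  | 0, 2, 0 => ([], 0)
  | 0, 2, 1 => ([], 0)
  | 0, 2, 2 => ([], 0)
  | 0, 2, 3 => ([], 0)
  | 0, 3, 0 => ([], 0)
  | 0, 3, 1 => ([], 0)
  | 0, 3, 2 => ([], 0)
  | 0, 3, 3 => ([], 0)
  | 0, 4, 0 => ([], 0)
  | 0, 4, 1 => ([], 0)
  | 0, 4, 2 => ([], 0)
  | 0, 4, 3 => ([], 0)
  | 0, 5, 0 => ([], 0)
  | 0, 5, 1 => ([], 0)
  | 0, 5, 2 => ([(2, 1), (1, 3), (0, 3), (2, 1), (0, 1), (5, 3), (0, 3), (2, 3), (5, 1), (1, 1), (0, 1), (5, 3), (0, 3), (2, 3), (5, 1), (1, 1), (0, 1), (5, 3), (1, 1), (1, 3), (0, 3), (1, 3), (1, 1), (1, 1), (0, 1), (1, 3), (0, 3), (2, 3), (1, 1), (1, 1), (0, 1), (1, 1), (0, 1), (1, 1), (1, 3), (2, 1), (2, 3), (2, 1), (2, 3), (2, 1), (2, 3), (1, 1), (1, 1), (5, 1), (0, 1), (1, 1), (0,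 1), (1, 1), (1, 3), (5, 3), (0, 3), (1, 1), (0, 1), (1, 1), (1, 3), (5, 3), (0, 3), (1, 1), (2, 3), (2, 1), (0, 1), (5, 3), (0, 3), (1, 1), (0, 1), (1, 1), (1, 3), (5, 3), (0, 3), (2, 1), (1, 3), (2, 1), (2, 3), (2, 1), (2, 3), (2, 1), (2, 3), (1, 1)], 1)
  | 0, 5, 3 => ([], 0)
  | 1, 0, 0 => ([], 0)
  | 1, 0, 1 => ([], 0)
  | 1, 0, 2 => ([(5, 3), (5, 3), (0, 3), (2, 1), (2, 3), (2, 1), (2, 3), (2, 1), (2, 3), (1, 3), (0, 3), (1, 3), (0, 3), (2, 3), (5, 1), (2, 3), (5, 1), (2, 3), (5, 1), (2, 3), (5, 1), (2, 1), (1, 3), (0, 3), (1, 1), (0, 1), (1, 3), (0, 3), (1, 1), (0, 1), (1, 3), (0, 3), (1, 1), (0, 1), (1, 3), (0, 3), (1, 1), (2, 3)], 5)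
  | 1, 0, 3 => ([], 0)
  | 1, 1, 0 => ([], 0)
  | 1, 1, 1 => ([], 0)
  | 1, 1, 2 => ([(1, 1), (1, 3), (0, 3), (2, 3), (5, 1), (2, 3), (5, 1), (2, 3), (5, 1), (2, 3), (5, 1), (2, 1), (1, 3), (0, 3), (1, 1), (0, 1), (1, 3), (0, 3), (1, 1), (0, 1), (1, 3), (0, 3), (1, 1), (0, 1), (1, 3), (0, 3), (1, 1), (0, 1), (2, 3), (0, 3), (1, 1), (0, 1), (1, 1), (1, 3), (2, 3), (0, 3), (1, 1), (0, 1), (1, 1), (1, 3), (2, 1), (5, 3), (2, 3), (1, 3), (5, 1), (0, 1), (2, 1), (5, 3), (2, 3), (0, 3), (5, 1), (0, 1), (1, 1), (5, 3), (2, 3), (1, 1), (0, 1), (5, 3), (2, 1), (5, 3), (2, 1), (5, 3), (2, 1), (5, 3)], 2)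
  | 1, 1, 3 => ([], 0)
  | 1, 2, 0 => ([], 0)
  | 1, 2, 1 => ([], 0)
  | 1, 2, 2 => ([], 0)
  | 1, 2, 3 => ([], 0)
  | 1, 3, 0 => ([], 0)
  | 1, 3, 1 => ([], 0)
  | 1, 3, 2 => ([], 0)
  | 1, 3, 3 => ([], 0)
  | 1, 4, 0 => ([], 0)
  | 1, 4, 1 => ([], 0)
  | 1, 4, 2 => ([], 0)
  | 1, 4, 3 => ([], 0)
  | 1, 5, 0 => ([], 0)
  | 1, 5, 1 => ([], 0)
  | 1, 5, 2 => ([(0, 1), (1, 1), (2, 3), (2, 1), (0, 1), (5, 1), (0, 1), (1, 1), (0, 1), (1, 1), (1, 3), (5, 3), (0, 3), (1, 1), (0, 1), (1, 1), (1, 3), (5, 3), (0, 3), (1, 1), (2, 3), (2, 3), (0, 3), (5, 3), (0, 3), (1, 1), (0, 1), (1, 1), (1, 3), (5, 3), (0, 3), (2, 1), (1, 3), (2, 1), (2, 3), (2, 1), (2, 3), (2, 1), (2, 3), (0, 3)], 5)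
  | 1, 5, 3 => ([], 0)

/-- the paths T2 -/
def pathT2 : Fin 2 → Fin 6 → Fin 4 → List (ℕ × Fin 4) × ℕ
  | 0, 0, 0 => ([(0, 3)], 2)
  | 0, 0, 1 => ([(0, 3), (0, 3), (5, 3)], 0)
  | 0, 0, 2 => ([(2, 3), (2, 3), (1, 3)], 0)
  | 0, 0, 3 => ([(0, 1), (3, 3), (5, 3)], 2)
  | 0, 1, 0 => ([(1, 3), (2, 1), (2, 3), (2, 1), (2, 3), (2, 1), (2, 3), (1, 1), (1, 3), (1, 3), (0, 3)], 0)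
  | 0, 1, 1 => ([(5, 3), (2, 1), (5, 3), (2, 1), (5, 3), (2, 1), (5, 3), (2, 1), (5, 3), (2, 1), (4, 3)], 0)
  | 0, 1, 2 => ([(0, 3), (2, 3), (5, 1), (2, 1), (0, 1), (5, 3), (2, 1), (1, 3), (0, 3), (1, 1), (0, 1), (5, 3), (0, 3), (2, 3), (5, 1), (1, 1), (0, 1), (5, 3), (1, 1), (1, 3), (0, 3), (1, 1), (0, 1), (5, 3), (1, 1), (1, 3), (0, 3), (2, 3), (1, 1), (1, 1), (0, 1), (2, 3), (0, 3), (1, 3), (0, 3), (1, 3), (0, 3), (1, 1), (0, 1), (1, 3), (0, 3), (1, 1), (0, 1), (1, 1), (5, 3), (5, 3), (1, 3), (2, 3), (1, 3)], 0)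
  | 0, 1, 3 => ([(0, 1), (2, 3), (5, 3)], 2)
  | 0, 2, 0 => ([(2, 3)], 0)
  | 0, 2, 1 => ([(0, 1)], 1)
  | 0, 2, 2 => ([(2, 3), (2, 1), (1, 3), (1, 1), (1, 3), (1, 1), (1, 3), (1, 1), (2, 3), (2, 3), (0, 3), (1, 3), (0, 3), (1, 1), (1, 1)], 1)
  | 0, 2, 3 => ([(5, 3), (2, 3), (2, 1), (0, 1), (5, 1), (0, 1), (1, 1), (1, 3), (2, 1), (2, 3), (2, 1), (2, 3), (2, 1), (2, 3), (1, 1)], 1)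
  | 0, 3, 0 => ([(1, 1)], 0)
  | 0, 3, 1 => ([(0, 3)], 2)
  | 0, 3, 2 => ([(0, 3), (1, 1), (1, 1)], 1)
  | 0, 3, 3 => ([(5, 3), (2, 3), (2, 1)], 0)
  | 0, 4, 0 => ([(2, 3), (2, 1), (2, 3), (1, 1), (1, 3), (1, 1), (1, 3), (1, 1), (1, 3)], 2)
  | 0, 4, 1 => ([(0, 1)], 2)
  | 0, 4, 2 => ([(0, 1)], 0)
  | 0, 4, 3 => ([(0, 3), (0, 3), (2, 1)], 0)
  | 0, 5, 0 => ([(0, 3), (1, 3), (0, 3)], 0)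
  | 0, 5, 1 => ([(5, 3)], 0)
  | 0, 5, 2 => ([(2, 3), (2, 1), (0, 1)], 0)
  | 0, 5, 3 => ([(0, 3), (0, 3), (1, 1), (0, 1), (1, 3), (0, 3), (2, 1), (0, 1), (5, 3), (0, 3), (2, 3), (5, 1), (1, 1), (0, 1), (5, 3), (0, 3), (2, 3), (5, 1), (1, 1), (0, 1), (5, 3), (1, 1), (1, 3), (0, 3), (1, 3), (1, 1), (1, 1), (0, 1), (1, 3), (0, 3), (2, 3), (1, 1), (1, 1), (0, 1), (1, 1), (5, 3), (5, 3)], 2)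
  | 1, 0, 0 => ([(0, 3)], 2)
  | 1, 0, 1 => ([(0, 3)], 0)
  | 1, 0, 2 => ([(3, 3)], 0)
  | 1, 0, 3 => ([(0, 1), (2, 3), (5, 3)], 2)
  | 1, 1, 0 => ([(0, 3), (0, 3), (2, 1)], 0)
  | 1, 1, 1 => ([(5, 3), (2, 1), (5, 3), (2, 1), (5, 3), (2, 1), (5, 3), (2, 1), (5, 3), (2, 1), (4, 3)], 0)
  | 1, 1, 2 => ([(1, 1), (1, 3), (0, 3), (2, 3), (5, 1), (2, 3), (5, 1), (2, 3), (5, 1), (2, 3), (5, 1), (2, 1), (1, 3), (0, 3), (1, 1), (0, 1), (1, 3), (0, 3), (1, 1), (0, 1), (1, 3), (0, 3), (1, 1), (0, 1), (1, 3), (0, 3), (1, 1), (0, 1), (2, 3), (0, 3), (1, 1), (0, 1), (1, 1), (1, 3), (2, 3), (0, 3), (1, 1), (0, 1), (1, 1), (1, 3), (2, 1), (5, 3), (2, 3), (1, 3), (5, 1), (0, 1), (2, 1), (5, 3), (2, 3), (0, 3), (5, 1), (0, 1), (1, 1), (5, 3),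 (2, 3), (0, 3), (5, 1), (2, 1), (1, 3), (1, 1), (1, 3), (1, 1), (1, 3), (1, 1), (2, 3), (2, 1), (0, 1), (1, 1), (5, 3)], 0)
  | 1, 1, 3 => ([(0, 1)], 2)
  | 1, 2, 0 => ([(2, 3)], 0)
  | 1, 2, 1 => ([(2, 3)], 5)
  | 1, 2, 2 => ([(0, 3), (5, 3), (0, 3), (1, 1), (1, 1)], 1)
  | 1, 2, 3 => ([(5, 3), (2, 3), (2, 1)], 0)
  | 1, 3, 0 => ([(5, 3)], 5)
  | 1, 3, 1 => ([(0, 3), (1, 3), (2, 3)], 5)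
  | 1, 3, 2 => ([(0, 3)], 5)
  | 1, 3, 3 => ([(0, 3), (0, 3), (2, 3)], 0)
  | 1, 4, 0 => ([(2, 3), (2, 1), (2, 3), (1, 1), (1, 3), (1, 1), (1, 3), (1, 1), (1, 3)], 2)
  | 1, 4, 1 => ([(0, 1)], 2)
  | 1, 4, 2 => ([(0, 1), (5, 3), (2, 3), (2, 1), (0, 1)], 0)
  | 1, 4, 3 => ([(0, 3), (0, 3), (1, 1), (1, 1), (1, 3), (0, 3), (2, 1)], 0)
  | 1, 5, 0 => ([(0, 1), (2, 3), (0, 3)], 0)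
  | 1, 5, 1 => ([(0, 1)], 0)
  | 1, 5, 2 => ([(2, 3)], 0)
  | 1, 5, 3 => ([(0, 1), (5, 1), (1, 1), (2, 1), (1, 1), (2, 1), (1, 1), (1, 3), (2, 1), (0, 1), (5, 3), (0, 3), (2, 1), (0, 1), (5, 3), (0, 3), (2, 1), (0, 1), (5, 1), (0, 1), (2, 1), (0, 1), (5, 1)], 0)

/-- equality up to a unit -/
def sameU (p q : M3) : Bool := decide (∃ u : Fin 6, p = M3.smul (Eis.unit u) q)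

/-- the difference of the points `x.app (pt j)` and `pt k` in the directions of both ends of the
arc, rotated by `R` -/
def up (ar : Fin 2) (R : Fin 6) (x : Aff) (j k : Fin 4) : Bool :=
  lb (Eis.unit R * dE ar false) (x.app (pt j) - pt k) &&
    lb (Eis.unit R * dE ar true) (x.app (pt j) - pt k)

/-- follow a path -/
def run (ok : Aff → Fin 4 → Bool) :
    List (ℕ × Fin 4) → M3 → Aff → Fin 4 → Option (M3 × Aff × Fin 4)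
  | [], m, x, j => some (m, x, j)
  | (e, s) :: l, m, x, j =>
    if e < ordr j && ok (x * aT j e) (j + s) && (s == 1 || s == 3) then
      run ok l (m * xT j e) (x * aT j e) (j + s)
    else none

/-- check a path: from `(x_i^a, i+s)` to `(w x_k^a', k+s')`, `w = (m', x')` -/
def checkPath (ok : Aff → Fin 4 → Bool) (p : List (ℕ × Fin 4) × ℕ) (t : ℕ × Fin 4) (i : Fin 4)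
    (t' : ℕ × Fin 4) (k : Fin 4) (w : M3) : Bool :=
  match run ok p.1 (xT i t.1) (aT i t.1) (i + t.2) with
  | none => false
  | some (m, _, j) => decide (p.2 < ordr j) && decide (j = k + t'.2) &&
      sameU (m * xT j p.2) (w * xT k t'.1)

/-- the whole certificate -/
def certOK : Bool :=
  (List.finRange 2).all fun ar => (List.finRange 6).all fun R => (List.finRange 4).all fun i =>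
    let t := tauD ar R i
    let t1 := tauD ar R (i + 1)
    let t2 := tauD ar (R + (ax i).n) i
    decide (t.1 < ordr i) && (t.2 == 1 || t.2 == 3) &&
    up ar R (aT i t.1) (i + t.2) i &&
    checkPath (fun x j => up ar R x j i || up ar R x j (i + 1)) (pathT2 ar R i) t i t1 (i + 1) 1 &&
    checkPath (fun x j => up ar R x j i) (pathT1 ar R i) t i t2 i (xM i)

/-- the part of the certificate with given `ar`, `R` -/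
def certR (ar : Fin 2) (R : Fin 6) : Bool :=
  (List.finRange 4).all fun i =>
    let t := tauD ar R i
    let t1 := tauD ar R (i + 1)
    let t2 := tauD ar (R + (ax i).n) i
    decide (t.1 < ordr i) && (t.2 == 1 || t.2 == 3) &&
    up ar R (aT i t.1) (i + t.2) i &&
    checkPath (fun x j => up ar R x j i || up ar R x j (i + 1)) (pathT2 ar R i) t i t1 (i + 1) 1 &&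
    checkPath (fun x j => up ar R x j i) (pathT1 ar R i) t i t2 i (xM i)

theorem certR_00 : certR 0 0 = true := by decide +kernel
theorem certR_01 : certR 0 1 = true := by decide +kernel
theorem certR_02 : certR 0 2 = true := by decide +kernel
theorem certR_03 : certR 0 3 = true := by decide +kernel
theorem certR_04 : certR 0 4 = true := by decide +kernel
theorem certR_05 : certR 0 5 = true := by decide +kernel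
theorem certR_10 : certR 1 0 = true := by decide +kernel
theorem certR_11 : certR 1 1 = true := by decide +kernel
theorem certR_12 : certR 1 2 = true := by decide +kernel
theorem certR_13 : certR 1 3 = true := by decide +kernel
theorem certR_14 : certR 1 4 = true := by decide +kernel
theorem certR_15 : certR 1 5 = true := by decide +kernel

theorem certR_ok (ar : Fin 2) (R : Fin 6) : certR ar R = true := by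
  fin_cases ar <;> fin_cases R
  · exact certR_00
  · exact certR_01
  · exact certR_02
  · exact certR_03
  · exact certR_04
  · exact certR_05
  · exact certR_10
  · exact certR_11
  · exact certR_12
  · exact certR_13
  · exact certR_14
  · exact certR_15

theorem certOK_eq : certOK = true := by
  rw [certOK, List.all_eq_true]
  intro ar _
  rw [List.all_eq_true]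
  intro R _
  exact certR_ok ar R

end Pool.Agent.H86.DM
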