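import Pool.Agent.H86.DM.Kg
import Pool.Agent.H13.DM.BNS.Joined

/-!
MP_9d29f5_al, project DM, block D (helper86): the subgroup of translations and its generating set.
-/
set_option autoImplicit false

namespace Pool.Agent.H86.DM

open Pool.Agent.H13.DM

/-- the elements acting as translations -/
def Kp (A : Kg →* Aff) : Subgroup Kg where
  carrier := {g | (A g).n = 0}
  mul_mem' {a b} ha hb := by
    change (A (a * b)).n = 0
    rw [map_mul, Aff.mul_n, ha, hb, add_zero]
  one_mem' := by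
    change (A 1).n = 0
    rw [map_one]; rfl
  inv_mem' {a} ha := by
    change (A a⁻¹).n = 0
    rw [map_inv, Aff.inv_n, ha, neg_zero]

/-- the translation vector -/
def tv (A : Kg →* Aff) (g : Kg) : Eis × Eis := ((A g).c1, (A g).c2)

theorem tv_mul (A : Kg →* Aff) {g h : Kg} (hg : (A g).n = 0) :
    tv A (g * h) = tv A g + tv A h := by
  have hu : Eis.unit 0 = 1 := rfl
  ext1
  · change (A (g * h)).c1 = (A g).c1 + (A h).c1
    rw [map_mul, Aff.mul_c1, hg, hu, one_mul]
  · change (A (g * h)).c2 = (A g).c2 + (A h).c2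
    rw [map_mul, Aff.mul_c2, hg, hu, one_mul]

theorem ax3_pow_n : ∀ n : Fin 6, n + ((ax 3) ^ (n : ℕ)).n = 0 := by decide +kernel

theorem cor_mem (A : Kg →* Aff) (hA : IsAff A) (g : Kg) :
    g * (xk 3) ^ ((A g).n : ℕ) ∈ Kp A := by
  change (A (g * (xk 3) ^ ((A g).n : ℕ))).n = 0
  rw [map_mul, map_pow, hA.x, Aff.mul_n]
  exact ax3_pow_n _

/-- `g` times a power of `x_4` which makes it a translation -/
def cor (A : Kg →* Aff) (hA : IsAff A) (g : Kg) : Kp A :=
  ⟨g * (xk 3) ^ ((A g).n : ℕ), cor_mem A hA g⟩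

/-- the generating set of `Kp` -/
def XK (A : Kg →* Aff) (hA : IsAff A) : Set (Kp A) :=
  {k | ∃ g c : Kg, c ∈ Sg ∧ k = (cor A hA g)⁻¹ * cor A hA (g * c)}

end Pool.Agent.H86.DM
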